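import Pool.Agent.Lib.lead.CXDefs

/-! Fixed-parameter tractability. -/

namespace Pool.Agent.Lib.CX

/-- `A` with parameter `κ` is decided in time `f (κ a) * poly (size a)` with `f` computable -/
def FPT {α : Type} [Enc α] (A : α → Prop) (κ : α → ℕ) : Prop :=
  ∃ (p : Prog) (f : ℕ → ℕ) (q : Polynomial ℕ), Computable f ∧ ∀ a, ∃ (r : Bool) (n m : ℕ),
    n ≤ f (κ a) * q.eval (size a) ∧ Exec p (io (enc a)) (io (enc r)) n m ∧ (r = true ↔ A a)

end Pool.Agent.Lib.CX
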