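import Pool.Agent.Lib.helper26.CXFptDefs
import Pool.Agent.Lib.lead.CXGraphRed

/-! Tools for fpt algorithms: loops with a general bound, padding, reductions. -/

namespace Pool.Agent.Lib.CX

open Function Polynomial

variable {α β σ : Type} [Enc α] [Enc β] [Enc σ]

theorem eval_mul_le (r : Polynomial ℕ) : ∃ d, ∀ x y : ℕ, 1 ≤ x → r.eval (x * y) ≤ x ^ d * r.eval y := by
  induction r using Polynomial.induction_on' with
  | add p q hp hq =>
    obtain ⟨d, hd⟩ := hp
    obtain ⟨e, he⟩ := hq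
    refine ⟨d + e, fun x y hx => ?_⟩
    have h1 : x ^ d ≤ x ^ (d + e) := Nat.pow_le_pow_right hx (by omega)
    have h2 : x ^ e ≤ x ^ (d + e) := Nat.pow_le_pow_right hx (by omega)
    have h3 := (hd x y hx).trans (Nat.mul_le_mul_right _ h1)
    have h4 := (he x y hx).trans (Nat.mul_le_mul_right _ h2)
    simp only [eval_add, mul_add]; omega
  | monomial n c => exact ⟨n, fun x y _ => by simp only [eval_monomial, mul_pow]; exact le_of_eq (by ring)⟩

theorem computable_pow {f : ℕ → ℕ} (hf : Computable f) (d : ℕ) : Computable fun k => f k ^ d := by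
  induction d with
  | zero => simpa using Computable.const 1
  | succ d ih => simpa [pow_succ] using Primrec.nat_mul.to_comp.comp ih hf

theorem loopT {g : σ → σ} {c : σ → Bool} {i : α → σ} {o : σ → β} (hg : PT g) (hc : PT c) (hi : PT i) (ho : PT o) :
    ∃ (p : Prog) (r : Polynomial ℕ), ∀ a B k, k ≤ B → size a ≤ B → (∀ j < k, c (g^[j] (i a)) = true) →
      c (g^[k] (i a)) = false → (∀ j ≤ k, size (g^[j] (i a)) ≤ B) → R p (enc a) (enc (o (g^[k] (i a)))) (r.eval B) := by
  obtain ⟨p, q, hq⟩ := hc.pair (hc.cond hg PT.id)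
  obtain ⟨p0, N0, ⟨q0, hN0⟩, h0⟩ := PT_iff.1 hi
  obtain ⟨p1, N1, ⟨q1, hN1⟩, h1'⟩ := PT_iff.1 ho
  refine ⟨.seq p0 (.seq preP (.seq (.loop 0 (bodyP p)) (.seq postP p1))),
    q0 + q1 + (Polynomial.X + 1) * (q + C 13) + C 20 * Polynomial.X + C 14, fun a B k hk ha h1 h2 h4 => ?_⟩
  obtain ⟨n, hn, e⟩ := loop_exec (p := p) (N := fun s => q.eval (size s)) (B := q.eval B) (H := B + 1) (by omega)
    (fun s => by obtain ⟨n, m, hn, e⟩ := hq s; exact ⟨n, hn, m, by simpa [io_eq] using e⟩) k (i a) h1 h2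
    (fun j hj => ⟨eval_mono q (h4 j hj), (h4 j hj).trans (by omega)⟩)
  have e' : X _ _ _ n := ⟨n, le_rfl, _, e⟩
  have l1 := h4 0 (by omega)
  have l2 := h4 k le_rfl
  have l3 := (hN1 _).trans (eval_mono q1 l2)
  have l4 := (hN0 a).trans (eval_mono q0 ha)
  refine X.mono ((h0 a).seq ((X.pre _).seq (e'.seq ((X.post _).seq (h1' _))))) ?_
  have : (k + 1) * (q.eval B + 13) ≤ (B + 1) * (q.eval B + 13) := Nat.mul_le_mul_right _ (by omega)
  simp only [size, iterate_zero, _root_.id] at l1 l2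
  simp only [eval_add, eval_mul, eval_X, eval_C, eval_one]
  omega

/-- a while loop whose number of rounds and whose states are bounded by `f (κ a) * poly` -/
theorem FPT.loop {A : α → Prop} {κ : α → ℕ} {g : σ → σ} {c : σ → Bool} {i : α → σ} {o : σ → Bool}
    (hg : PT g) (hc : PT c) (hi : PT i) (ho : PT o) {f : ℕ → ℕ} (hf : Computable f) {B : α → ℕ} (hB : PB B)
    (h : ∀ a, ∃ k ≤ f (κ a) * B a, (∀ j < k, c (g^[j] (i a)) = true) ∧ c (g^[k] (i a)) = false ∧
      (o (g^[k] (i a)) = true ↔ A a) ∧ ∀ j ≤ k, size (g^[j] (i a)) ≤ f (κ a) * B a) : FPT A κ := by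
  obtain ⟨p, r, hr⟩ := loopT hg hc hi ho
  obtain ⟨q, hq⟩ := hB
  obtain ⟨d, hd⟩ := eval_mul_le r
  refine ⟨p, fun k => (f k + 1) ^ d, r.comp (q + Polynomial.X), computable_pow (Computable.succ.comp hf) d,
    fun a => ?_⟩
  obtain ⟨k, hk, h1, h2, h3, h4⟩ := h a
  have b1 : f (κ a) * B a ≤ (f (κ a) + 1) * (q.eval (size a) + size a) :=
    Nat.mul_le_mul (by omega) ((hq a).trans (by omega))
  have b2 : size a ≤ (f (κ a) + 1) * (q.eval (size a) + size a) := by nlinarith
  obtain ⟨n, hn, m, e⟩ := hr a _ k (hk.trans b1) b2 h1 h2 fun j hj => (h4 j hj).trans b1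
  refine ⟨_, n, m, hn.trans ?_, by simpa [io_eq] using e, h3⟩
  simpa [eval_comp] using hd (f (κ a) + 1) _ (by omega)

/-- an algorithm that is polynomial once it is given `M a ≤ f (κ a) * poly` units of padding -/
theorem FPT.of_pad {A : α → Prop} {κ : α → ℕ} {M : α → ℕ} (hM : PT M) {f : ℕ → ℕ} (hf : Computable f)
    {B : α → ℕ} (hB : PB B) (hb : ∀ a, M a ≤ f (κ a) * B a) {V : α × List Unit → Bool} (hV : PT V)
    (h : ∀ a, V (a, List.replicate (M a) ()) = true ↔ A a) : FPT A κ := by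
  have key : ∀ (a : α) (j : ℕ), (fun s : α × List Unit => (s.1, () :: s.2))^[j] (a, []) =
      (a, List.replicate j ()) := fun a j => by
    induction j with
    | zero => rfl
    | succ j ih => rw [iterate_succ_apply', ih]; rfl
  have hs := PB.size' (α := α)
  refine FPT.loop (g := fun s : α × List Unit => (s.1, () :: s.2)) (c := fun s => decide (s.2.length < M s.1))
    (i := fun a => (a, [])) (o := V) (by fun_prop) (by fun_prop) (by fun_prop) hV
    (f := fun k => f k + 1) (Computable.succ.comp hf) (B := fun a => 4 * B a + size a + 4) (by fun_prop)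
    fun a => ⟨M a, ?_, ?_, ?_, ?_, ?_⟩
  · have := hb a; nlinarith
  · intro j hj; simp [key, hj]
  · simp [key]
  · rw [key]; exact h a
  · intro j hj
    have h1 : size (List.replicate j ()) ≤ 4 * j + 2 := by
      clear hj
      induction j with
      | zero => simp [size, enc, Enc.tr, Tr.code, listTr]
      | succ j ih =>
        rw [List.replicate_succ, size_cons]
        have : size () ≤ 2 := by simp [size, enc, Enc.tr, Tr.code]
        omega
    rw [key, size_pair]
    have := hb a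
    nlinarith

theorem FPT.red {A : α → Prop} {B : β → Prop} {κ : α → ℕ} {μ : β → ℕ} {R : α → β}
    {g : ℕ → ℕ} (hR : PT R) (hg : Computable g) (e : ∀ a, A a ↔ B (R a)) (hk : ∀ a, μ (R a) ≤ g (κ a))
    (h : FPT B μ) : FPT A κ := by
  obtain ⟨p, f, q, hf, h⟩ := h
  obtain ⟨q2, h2⟩ := PB.size hR
  obtain ⟨p1, q1, h1⟩ := hR
  let F : ℕ → ℕ := fun n => Nat.rec 1 (fun i s => s + f i) n
  have hF : Computable F :=
    Computable.nat_rec Computable.id (Computable.const 1)
      (Primrec.nat_add.to_comp.comp (Computable.snd.comp Computable.snd)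
        (hf.comp (Computable.fst.comp Computable.snd))).to₂
  have F1 : ∀ n, 1 ≤ F n ∧ ∀ i < n, f i ≤ F n := fun n => by
    induction n with
    | zero => simp [F]
    | succ n ih =>
      have : F (n + 1) = F n + f n := rfl
      refine ⟨by omega, fun i hi => ?_⟩
      rcases Nat.lt_succ_iff_lt_or_eq.1 hi with h | rfl
      · have := ih.2 i h; omega
      · omega
  refine ⟨.seq p1 p, fun k => F (g k + 1), q1 + q.comp q2 + 1, hF.comp (Computable.succ.comp hg), fun a => ?_⟩
  obtain ⟨n1, m1, b1, x1⟩ := h1 a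
  obtain ⟨r, n, m, b, x, hr⟩ := h (R a)
  refine ⟨r, n1 + n + 1, max m1 m, ?_, .seq (x1.mono (le_max_left _ _)) (x.mono (le_max_right _ _)),
    hr.trans (e a).symm⟩
  obtain ⟨c1, c2⟩ := F1 (g (κ a) + 1)
  have c3 := c2 _ (Nat.lt_succ_of_le (hk a))
  have c4 : q.eval (size (R a)) ≤ _ := eval_mono q (h2 a)
  have c5 := Nat.mul_le_mul c3 c4
  have c6 := Nat.mul_le_mul c1 b1
  simp only [Polynomial.eval_add, Polynomial.eval_comp, Polynomial.eval_one, mul_add]
  omega

end Pool.Agent.Lib.CX
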