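import Pool.Agent.Lib.helper26.ContrDefs

/-! Contraction sequences versus partitions into connected parts. -/

namespace Pool.Agent.Lib.CX
open Function Relation

variable {V W X : Type} {P : ∀ V : Type, SimpleGraph V → Prop} {G : SimpleGraph V}

def Her (P : ∀ V : Type, SimpleGraph V → Prop) : Prop :=
  ∀ (V W : Type) (G : SimpleGraph V) (G' : SimpleGraph W), (G ↪g G') → P W G' → P V G

theorem Her.free (H : SimpleGraph W) : Her fun _ G => ¬ H.IsIndContained G := fun _ _ _ _ e h ⟨f⟩ => h ⟨e.comp f⟩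

theorem Her.and {Q : ∀ V : Type, SimpleGraph V → Prop} (h : Her P) (h' : Her Q) : Her fun V G => P V G ∧ Q V G :=
  fun _ _ _ _ e p => ⟨h _ _ _ _ e p.1, h' _ _ _ _ e p.2⟩

def Conn (G : SimpleGraph V) (f : V → W) : Prop :=
  ∀ a b, f a = f b → ReflTransGen (fun x y => G.Adj x y ∧ f x = f y) a b

theorem Conn.comp {π : V → W} {f : W → X} (h : Conn G π) (h' : Conn (G.map π) f) : Conn G (f ∘ π) := by
  have l : ∀ a b, π a = π b → ReflTransGen (fun x y => G.Adj x y ∧ (f ∘ π) x = (f ∘ π) y) a b := fun a b e =>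
    ReflTransGen.mono (fun x y ⟨h1, h2⟩ => ⟨h1, congrArg f h2⟩) _ _ (h a b e)
  intro a b e
  have := h' _ _ e
  generalize hy : π b = y at this
  induction this generalizing b with
  | refl => exact l _ _ hy.symm
  | @tail x y h0 h1 ih =>
    obtain ⟨⟨-, a', b', h2, rfl, h3⟩, h4⟩ := h1
    have h5 : f (π a) = f (π a') := (e.trans (congrArg f hy)).trans h4.symm
    exact ((ih a' h5 rfl).tail ⟨h2, h4.trans (congrArg f h3.symm)⟩).trans (l _ _ (h3.trans hy.symm))

theorem Conn.of_comp {π : V → W} {f : W → X} (h : Conn G (f ∘ π)) (a b : V) (e : f (π a) = f (π b)) :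
    ReflTransGen (fun x y => (G.map π).Adj x y ∧ f x = f y) (π a) (π b) := by
  have := h a b e
  clear e
  induction this with
  | refl => exact .refl
  | @tail x y _ h1 ih =>
    by_cases e : π x = π y
    · exact e ▸ ih
    · exact ih.tail ⟨⟨e, x, y, h1.1, rfl, rfl⟩, h1.2⟩

theorem Conn.edge {f : V → W} (h : Conn G f) {a b : V} (e : f a = f b) (ne : a ≠ b) : ∃ c, G.Adj a c ∧ f a = f c := by
  rcases (h a b e).cases_head with h | ⟨c, h, -⟩
  exacts [(ne h).elim, ⟨c, h⟩]

theorem Conn.pair {f : V → W} (h : ∀ a b, f a = f b → a = b ∨ G.Adj a b) : Conn G f := fun a b e => by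
  rcases h a b e with rfl | h
  exacts [.refl, .single ⟨h, e⟩]

open Classical in
noncomputable def prj {u v : V} (h : u ≠ v) (w : V) : {w // w ≠ v} := if e : w = v then ⟨u, h⟩ else ⟨w, e⟩

theorem prj_val {u v : V} (h : u ≠ v) (w : {w // w ≠ v}) : prj h w.1 = w := dif_neg w.2

theorem prj_eq {u v : V} (h : u ≠ v) {w x} : prj h w = x ↔ (w = v ∧ x.1 = u) ∨ w = x.1 := by
  obtain ⟨x, hx⟩ := x
  unfold prj; split_ifs with e <;> simp only [Subtype.mk.injEq] <;> grind

theorem contr_eq {u v : V} (h : u ≠ v) : contr G u v = G.map (prj h) := by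
  ext a b
  simp only [contr, SimpleGraph.fromRel_adj, SimpleGraph.map_adj', prj_eq]
  refine and_congr_right fun ne => ⟨?_, ?_⟩
  · rintro ((h | ⟨h1, h2⟩) | h | ⟨h1, h2⟩)
    exacts [⟨_, _, h, .inr rfl, .inr rfl⟩, ⟨_, _, h2, .inl ⟨rfl, h1⟩, .inr rfl⟩,
      ⟨_, _, h.symm, .inr rfl, .inr rfl⟩, ⟨_, _, h2.symm, .inr rfl, .inl ⟨rfl, h1⟩⟩]
  · rintro ⟨x, y, h0, ⟨rfl, h1⟩ | rfl, ⟨rfl, h2⟩ | rfl⟩
    exacts [h0.ne rfl |>.elim, .inl (.inr ⟨h1, h0⟩), .inr (.inr ⟨h2, h0.symm⟩), .inl (.inl h0)]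

theorem card_ne [Finite V] (v : V) : Nat.card V = Nat.card {w // w ≠ v} + 1 := by
  classical
  rw [← Nat.card_congr (Equiv.optionSubtypeNe v), Finite.card_option]

theorem Contr.sound [Finite V] {k : ℕ} (h : Contr P k V G) :
    ∃ (W : Type) (f : V → W), Surjective f ∧ Conn G f ∧ Nat.card V ≤ Nat.card W + k ∧ P W (G.map f) := by
  have b : ∀ {V : Type} {G : SimpleGraph V} (k : ℕ), P V G → ∃ (W : Type) (f : V → W), Surjective f ∧ Conn G f ∧
      Nat.card V ≤ Nat.card W + k ∧ P W (G.map f) := fun {V G} k h =>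
    ⟨V, id, surjective_id, Conn.pair fun _ _ => .inl, by omega, by simpa using h⟩
  induction k generalizing V with
  | zero => exact b 0 h
  | succ k ih =>
    rcases h with h | ⟨u, v, h1, h2⟩
    · exact b _ h
    obtain ⟨W, f, h3, h4, h5, h6⟩ := ih h2
    rw [contr_eq h1.ne] at h4 h6
    refine ⟨W, f ∘ prj h1.ne, h3.comp fun w => ⟨w.1, prj_val _ w⟩, Conn.comp (Conn.pair fun a b e => ?_) h4,
      by rw [card_ne v]; omega, by rwa [← SimpleGraph.map_map]⟩
    rcases (prj_eq _).1 e with ⟨rfl, h⟩ | rfl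
    · rcases (prj_eq _).1 (rfl : prj h1.ne b = _) with ⟨rfl, -⟩ | h7
      exacts [.inl rfl, .inr (by rw [h7, h]; exact h1.symm)]
    · rcases (prj_eq _).1 (rfl : prj h1.ne b = _) with ⟨h8, h7⟩ | h7
      exacts [.inr (by rw [h7, h8]; exact h1), .inl h7.symm]

theorem Contr.of_prop {k : ℕ} (h : P V G) : Contr P k V G := by
  cases k
  exacts [h, .inl h]

theorem Contr.complete [Finite V] (hP : Her P) {k : ℕ} (f : V → W) (h1 : Conn G f)
    (h2 : Nat.card V ≤ (Set.range f).ncard + k) (h3 : P W (G.map f)) : Contr P k V G := by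
  induction k generalizing V with
  | zero =>
    have : Injective f := by
      rw [← Set.image_univ, ← Set.ncard_univ] at h2
      exact Set.injOn_univ.1 (Set.injOn_of_ncard_image_eq (le_antisymm (Set.ncard_image_le Set.finite_univ) h2))
    exact hP _ _ _ _ (SimpleGraph.Embedding.map ⟨f, this⟩ G) h3
  | succ k ih =>
    by_cases hi : Injective f
    · exact .inl (hP _ _ _ _ (SimpleGraph.Embedding.map ⟨f, hi⟩ G) h3)
    obtain ⟨u, b, e, ne⟩ := not_injective_iff.1 hi
    obtain ⟨v, h4, h5⟩ := h1.edge e ne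
    have e1 : (f ∘ Subtype.val) ∘ prj h4.ne = f := funext fun w => by
      rcases (prj_eq _).1 (rfl : prj h4.ne w = _) with ⟨h6, h7⟩ | h7
      · simp only [comp, h7]; rw [h6, h5]
      · simp only [comp, ← h7]
    have sj : Surjective (prj h4.ne) := fun w => ⟨w.1, prj_val _ w⟩
    refine .inr ⟨u, v, h4, ih (f ∘ Subtype.val) (fun a b e => ?_) ?_ ?_⟩
    · obtain ⟨a, rfl⟩ := sj a
      obtain ⟨b, rfl⟩ := sj b
      rw [contr_eq h4.ne]
      exact Conn.of_comp (by rwa [e1]) a b e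
    · rw [← sj.range_comp, e1]; rw [card_ne v] at h2; omega
    · rwa [contr_eq h4.ne, SimpleGraph.map_map, e1]

theorem Contr.iso [Finite V] (hP : Her P) {k : ℕ} {G' : SimpleGraph W} (e : G ≃g G') (h : Contr P k V G) :
    Contr P k W G' := by
  obtain ⟨X, f, h1, h2, h3, h4⟩ := h.sound
  have := Finite.of_equiv _ e.toEquiv
  refine Contr.complete hP (f ∘ e.symm) (fun a b h => ?_) ?_ ?_
  · simpa [onFun] using (h2 _ _ h).lift e (p := fun x y => G'.Adj x y ∧ (f ∘ e.symm) x = (f ∘ e.symm) y)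
      fun x y h => ⟨e.map_rel_iff.2 h.1, by simpa using h.2⟩
  · rw [(h1.comp e.symm.surjective).range_eq, Set.ncard_univ, ← Nat.card_congr e.toEquiv]; exact h3
  · have : G'.map e.symm = G := by
      ext a b
      refine ⟨fun ⟨_, x, y, h, h5, h6⟩ => h5 ▸ h6 ▸ e.symm.map_rel_iff.2 h, fun h => ⟨h.ne, e a, e b,
        e.map_rel_iff.2 h, by simp, by simp⟩⟩
    rwa [← SimpleGraph.map_map, this]

theorem wsum [Fintype V] [DecidableEq W] {f : V → W} (hf : Surjective f) {K : ℕ} (hc : Nat.card V ≤ Nat.card W + K)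
    (w : V → ℕ) (h : ∀ c, ∑ x with f x = c, w x + 2 ≤ 2 * (Finset.univ.filter fun x => f x = c).card) :
    ∑ x, w x ≤ 2 * K := by
  have := Finite.of_surjective f hf
  have := Fintype.ofFinite W
  have h1 := Finset.sum_le_sum fun c (_ : c ∈ Finset.univ) => h c
  rw [Finset.sum_add_distrib, Finset.sum_fiberwise, ← Finset.mul_sum,
    ← Finset.card_eq_sum_card_fiberwise (fun _ _ => Finset.mem_coe.2 (Finset.mem_univ _))] at h1
  simp only [Finset.sum_const, Finset.card_univ, smul_eq_mul, Nat.card_eq_fintype_card] at h1 hc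
  omega

/-- untouched vertices -/
def Un (f : V → W) (x : V) : Prop := ∀ y, f y = f x → y = x

theorem fib_two [Fintype V] [DecidableEq W] {f : V → W} {x : V} (h : ¬ Un f x) :
    2 ≤ (Finset.univ.filter fun y => f y = f x).card := by
  simp only [Un, not_forall] at h
  obtain ⟨y, h1, h2⟩ := h
  exact Finset.one_lt_card.2 ⟨y, by simpa using h1, x, by simp, h2⟩

open Classical in
theorem touched_le [Fintype V] {f : V → W} (hf : Surjective f) {K : ℕ} (hc : Nat.card V ≤ Nat.card W + K) :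
    (Finset.univ.filter fun x => ¬ Un f x).card ≤ 2 * K := by
  rw [Finset.card_filter]
  refine wsum hf hc _ fun c => ?_
  obtain ⟨x, rfl⟩ := hf c
  have h1 : 1 ≤ (Finset.univ.filter fun y => f y = f x).card := Finset.card_pos.2 ⟨x, by simp⟩
  by_cases h : Un f x
  · rw [Finset.sum_eq_zero fun y hy => if_neg (by rw [h y (by simpa using hy)]; simpa using h)]; omega
  · have := fib_two h
    have := Finset.sum_le_card_nsmul (Finset.univ.filter fun y => f y = f x) (fun x => if ¬ Un f x then 1 else 0) 1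
      fun _ _ => by split_ifs <;> omega
    simp only [smul_eq_mul] at this; omega

theorem exists_un [Finite V] {f : V → W} (hf : Surjective f) {K N : ℕ} (hc : Nat.card V ≤ Nat.card W + K)
    (hN : 4 * K < N) {φ ψ : Fin N → V} (h1 : Injective φ) (h2 : Injective ψ) : ∃ r, Un f (φ r) ∧ Un f (ψ r) := by
  classical
  have := Fintype.ofFinite V
  have h3 := touched_le hf hc
  have h4 : ∀ {φ : Fin N → V}, Injective φ → (Finset.univ.filter fun r => ¬ Un f (φ r)).card ≤ 2 * K := fun {φ} h =>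
    (Finset.card_le_card_of_injOn φ (fun r hr => by simpa using hr) h.injOn).trans h3
  by_contra hn
  have h5 := Finset.card_le_card (s := Finset.univ)
    (t := (Finset.univ.filter fun r => ¬ Un f (φ r)) ∪ Finset.univ.filter fun r => ¬ Un f (ψ r)) fun r _ => by
      simp only [not_exists, not_and_or] at hn; simpa using hn r
  have := h5.trans (Finset.card_union_le ..)
  have := h4 h1
  have := h4 h2
  simp only [Finset.card_univ, Fintype.card_fin] at *
  omega

theorem Un.ne {f : V → W} {x y : V} (h : Un f x) (ne : y ≠ x) : f y ≠ f x := fun e => ne (h y e)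

theorem Un.adj {f : V → W} {x y : V} (hx : Un f x) (hy : Un f y) : (G.map f).Adj (f x) (f y) ↔ G.Adj x y :=
  ⟨fun ⟨_, a, b, h, h1, h2⟩ => hx a h1 ▸ hy b h2 ▸ h, fun h => SimpleGraph.map_adj_apply' h (hy.ne h.ne)⟩

theorem Un.adj' {f : V → W} {x y : V} (hy : Un f y) : (G.map f).Adj (f x) (f y) ↔ ∃ a, f a = f x ∧ G.Adj a y :=
  ⟨fun ⟨_, a, b, h, h1, h2⟩ => ⟨a, h1, hy b h2 ▸ h⟩,
    fun ⟨_, h1, h⟩ => h1 ▸ SimpleGraph.map_adj_apply' h (hy.ne h.ne)⟩

end Pool.Agent.Lib.CX
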