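import Pool.Agent.H.MP_418eb4_lc.Alg
import Pool.Agent.Lib.helper21.Fn

/-! Total functions computable in oracles, and the low basis theorem. -/

namespace Pool.Agent.Lib.helper26.Low

open Encodable Denumerable Nat.Partrec Nat.Partrec.Code Filter
open Pool.Agent.Lib.PR Pool.Agent.H.MP_418eb4_lc Pool.Agent.Lib.helper22
open Pool.Agent.Lib.helper21.Fn (Om tb tb_cd cd_lt cd_congr Loc compact tb_prim orc ev_partrec
  toNat_prim)

attribute [local irreducible] Primrec Computable

/-- characteristic function of a set, as an oracle -/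
noncomputable def chi (S : Set ℕ) : ℕ →. ℕ := fun n => Part.some (S.indicator (fun _ => 1) n)

/-- the halting set -/
def K : Set ℕ := {e | ((ofNat Code e).eval e).Dom}

/-- every set computably enumerable in `X` is computable from the halting set -/
def IsLow (X : Set ℕ) : Prop :=
  ∀ f : ℕ →. ℕ, TuringReducible f (chi X) → TuringReducible (chi {n | (f n).Dom}) (chi K)

/-- total functions computable in the oracles -/
def CI (O : Set (ℕ →. ℕ)) (g : ℕ → ℕ) : Prop := Nat.RecursiveIn O fun n => Part.some (g n)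

variable {O : Set (ℕ →. ℕ)} {g h : ℕ → ℕ}

theorem CI.of_eq (hg : CI O g) (e : ∀ n, g n = h n) : CI O h := (funext e : g = h) ▸ hg

theorem CI.comp (hg : CI O g) (hh : CI O h) : CI O fun n => g (h n) :=
  (Nat.RecursiveIn.comp hg hh).of_eq fun n => by simp

theorem CI.pair (hg : CI O g) (hh : CI O h) : CI O fun n => Nat.pair (g n) (h n) :=
  (Nat.RecursiveIn.pair hg hh).of_eq fun n => by simp [Seq.seq]

theorem CI.of_comp (hg : Computable g) : CI O g := (Partrec.nat_iff.1 hg.partrec).recursiveIn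

theorem CI.of_prim (hg : Primrec g) : CI O g := .of_comp hg.to_comp

theorem CI.rec {F : ℕ → ℕ} (hh : CI O h) (hF : ∀ n, F (n + 1) = h (Nat.pair n (F n))) :
    CI O F := by
  have h1 : CI O fun q => h q.unpair.2 := hh.comp (.of_prim (by fun_prop))
  have h0 : CI O fun _ => F 0 := .of_prim (by fun_prop)
  have h2 := Nat.RecursiveIn.comp (Nat.RecursiveIn.prec h0 h1)
    (CI.of_prim (O := O) (g := fun n => Nat.pair 0 n) (by fun_prop))
  refine h2.of_eq fun n => ?_
  simp only [Part.bind_eq_bind, Part.bind_some, Nat.unpair_pair]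
  induction n with
  | zero => rfl
  | succ n ih =>
    dsimp only
    rw [ih]
    simp [hF]

theorem re_K {p : ℕ → Prop} (hp : REPred p) : CI {chi K} fun n => (cd (p n)).toNat := by
  obtain ⟨u, hu, h⟩ := smn_idx (R := fun z => p z.1) (re_comp hp .fst)
  have h1 : CI {chi K} fun n => K.indicator (fun _ => 1) n := Nat.RecursiveIn.oracle _ rfl
  refine (h1.comp (.of_comp hu)).of_eq fun n => ?_
  have h2 : u n ∈ K ↔ p n := h n (u n)
  by_cases h3 : p n
  · rw [Set.indicator_of_mem (h2.2 h3), cd_true.2 h3]; rfl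
  · rw [Set.indicator_of_notMem (mt h2.1 h3), Bool.eq_false_iff.2 (mt cd_true.1 h3)]; rfl

/-- code of an initial segment -/
abbrev sg := helper21.Fn.cd

theorem sg_tb (m s : ℕ) : sg (tb m) s = m % 2 ^ s := by
  rw [← helper21.Fn.cd_tb (Nat.mod_lt m (Nat.two_pow_pos s))]
  exact cd_congr fun i hi => by simp [tb, Nat.testBit_mod_two_pow, hi]

/-- the jump, through initial segments -/
def J (e : ℕ) (Z : Om) : Prop := ∃ s, Nat.pair e.unpair.2 (Nat.pair s (sg Z s)) ∈ W e.unpair.1

/-- bounded jump -/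
def Jt (e u : ℕ) (Z : Om) : Prop := ∃ s ≤ u,
  (evaln u (ofNat Code e.unpair.1) (Nat.pair e.unpair.2 (Nat.pair s (sg Z s)))).isSome = true

theorem Jt.mono {e u u' Z} (h : Jt e u Z) (hu : u ≤ u') : Jt e u' Z := by
  obtain ⟨s, hs, h⟩ := h
  obtain ⟨x, hx⟩ := Option.isSome_iff_exists.1 h
  exact ⟨s, hs.trans hu, Option.isSome_iff_exists.2 ⟨x, evaln_mono hu hx⟩⟩

theorem J_iff {e Z} : J e Z ↔ ∃ u, Jt e u Z := by
  refine ⟨fun ⟨s, h⟩ => ?_, fun ⟨u, s, _, h⟩ => ⟨s, mem_W.2 ⟨u, h⟩⟩⟩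
  obtain ⟨t, ht⟩ := mem_W.1 h
  obtain ⟨x, hx⟩ := Option.isSome_iff_exists.1 ht
  exact ⟨max s t, s, le_max_left _ _,
    Option.isSome_iff_exists.2 ⟨x, evaln_mono (le_max_right _ _) hx⟩⟩

theorem Jt_congr {e u Z Z'} (h : ∀ i < u, Z i = Z' i) (k : Jt e u Z) : Jt e u Z' := by
  obtain ⟨s, hs, k⟩ := k
  refine ⟨s, hs, ?_⟩
  rwa [show sg Z' s = sg Z s from cd_congr fun i hi => (h i (hi.trans_le hs)).symm]

/-- emptiness of the class avoiding a list of jump indices -/
def Em (L : List ℕ) : Prop := ∀ Z, ∃ e ∈ L, J e Z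

theorem lim (L : ℕ → List ℕ) (hm : ∀ u v, u ≤ v → L u ⊆ L v)
    (h : ∀ u, ∃ Z, ∀ e ∈ L u, ¬ Jt e u Z) : ∃ Z, ∀ u, ∀ e ∈ L u, ¬ J e Z := by
  obtain ⟨Z, hZ⟩ := compact (fun u Z => ∀ e ∈ L u, ¬ Jt e u Z)
    (fun u Z Z' h k e he k2 => k e he (Jt_congr (fun i hi => (h i hi).symm) k2))
    (fun u => (h u).imp fun Z hZ v hv e he k => hZ e (hm v u hv he) (k.mono hv))
  refine ⟨Z, fun u e he k => ?_⟩
  obtain ⟨t, ht⟩ := J_iff.1 k
  exact hZ (max u t) e (hm _ _ (le_max_left _ _) he) (ht.mono (le_max_right _ _))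

theorem re_Em : REPred Em := by
  have h1 : REPred fun L : List ℕ => ∃ u : ℕ, ∀ m < 2 ^ u, ∃ e ∈ L, ∃ s ≤ u,
      (evaln u (ofNat Code e.unpair.1) (Nat.pair e.unpair.2 (Nat.pair s (m % 2 ^ s)))).isSome
        = true := re_of (by fun_prop)
  refine h1.of_eq fun L => ?_
  simp only [← sg_tb]
  constructor
  · rintro ⟨u, h⟩ Z
    obtain ⟨e, he, k⟩ := h _ (cd_lt Z u)
    exact ⟨e, he, J_iff.2 ⟨u, Jt_congr (tb_cd Z u) k⟩⟩
  · intro h
    by_contra k
    push Not at k
    obtain ⟨Z, hZ⟩ := lim (fun _ => L) (fun _ _ _ => fun _ h => h) fun u => by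
      obtain ⟨m, -, hm⟩ := k u
      exact ⟨tb m, fun e he ⟨s, hs, k⟩ => hm e he s hs k⟩
    obtain ⟨e, he, k⟩ := h Z
    exact hZ 0 e he k

theorem exists_J (e0 : ℕ) (h0 : ∃ Z, ¬ J e0 Z) :
    ∃ Z, ¬ J e0 Z ∧ CI {chi K} fun e => (cd (J e Z)).toNat := by
  classical
  let L : ℕ → List ℕ := fun n => Nat.rec [e0] (fun e l => if Em (e :: l) then l else e :: l) n
  have hL : ∀ e, L (e + 1) = if Em (e :: L e) then L e else e :: L e := fun _ => rfl
  have h1 : ∀ n, ¬ Em (L n) := fun n => by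
    induction n with
    | zero =>
      obtain ⟨Z, hZ⟩ := h0
      intro h
      obtain ⟨e, he, k⟩ := h Z
      obtain rfl : e = e0 := by simpa [L] using he
      exact hZ k
    | succ n ih => rw [hL]; split_ifs with h; exacts [ih, h]
  have h2 : ∀ u v, u ≤ v → L u ⊆ L v := fun u v h => by
    induction h with
    | refl => exact fun _ h => h
    | step _ ih =>
      refine List.Subset.trans ih ?_
      rw [hL]; split_ifs; exacts [fun _ h => h, List.subset_cons_self _ _]
  obtain ⟨Z, hZ⟩ := lim L h2 fun u => by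
    have := h1 u
    simp only [Em, not_forall, not_exists, not_and] at this
    exact this.imp fun Z hZ e he k => hZ e he (J_iff.2 ⟨u, k⟩)
  have h3 : ∀ e, Em (e :: L e) ↔ J e Z := fun e => by
    constructor
    · intro h
      obtain ⟨e', he, k⟩ := h Z
      rcases List.mem_cons.1 he with rfl | he
      · exact k
      · exact absurd k (hZ e e' he)
    · intro h
      by_contra k
      exact hZ (e + 1) e (by rw [hL, if_neg k]; exact List.mem_cons_self) h
  let dl : ℕ → List ℕ := fun q => (decode (α := List ℕ) q).getD []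
  have hd : Primrec dl := by unfold dl; fun_prop
  have h4 : CI {chi K} fun q => (cd (Em (q.unpair.1 :: dl q.unpair.2))).toNat :=
    re_K (re_comp re_Em (c_prim (by fun_prop)))
  have h5 : CI {chi K} fun n => encode (L n) := by
    have h6 : Primrec fun w : ℕ => if w.unpair.2 = 1 then w.unpair.1.unpair.2 else
      encode (w.unpair.1.unpair.1 :: dl w.unpair.1.unpair.2) := by fun_prop
    refine CI.rec ((CI.of_prim h6).comp ((CI.of_prim Primrec.id).pair h4)) fun n => ?_
    simp only [hL, id, Nat.unpair_pair, dl, encodek, Option.getD_some]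
    by_cases h : Em (n :: L n)
    · simp [h]
    · simp [h]
  refine ⟨Z, hZ 0 e0 (by simp [L]), (h4.comp ((CI.of_prim Primrec.id).pair h5)).of_eq fun e => ?_⟩
  simp [dl, h3]

theorem chi_orc (Y : Om) : chi {n | Y n = true} = orc Y := by
  funext n
  cases h : Y n <;> simp [chi, orc, h]

theorem dom_J (Y : Om) (f : ℕ →. ℕ) (hf : TuringReducible f (orc Y)) :
    ∃ d, ∀ n, (f n).Dom ↔ J (Nat.pair d n) Y := by
  obtain ⟨c, hc⟩ := turingReducible_iff.1 hf
  let o : ℕ → ℕ → Option ℕ := fun a i =>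
    if i < a.unpair.1 then some (tb a.unpair.2 i).toNat else none
  have ho : Computable₂ o := (Primrec.ite (Primrec.nat_lt.comp Primrec.snd (Primrec.fst.comp
    (Primrec.unpair.comp Primrec.fst))) (Primrec.option_some.comp (toNat_prim.comp (tb_prim.comp
      (Primrec.snd.comp (Primrec.unpair.comp Primrec.fst)) Primrec.snd)))
      (Primrec.const none)).to_comp
  have h1 : Partrec₂ fun a n => ev (fun i => (o a i : Part ℕ)) c n :=
    ev_partrec (o := fun a i => (o a i : Part ℕ)) (Computable.ofOption ho) c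
  have h2 : Partrec fun z : ℕ => ev (fun i => (o z.unpair.2 i : Part ℕ)) c z.unpair.1 :=
    h1.comp (Computable.snd.comp Computable.unpair) (Computable.fst.comp Computable.unpair)
  obtain ⟨d, hd⟩ := exists_code.1 (Partrec.nat_iff.1 h2)
  have h3 : ∀ k i v, v ∈ (o (Nat.pair k (sg Y k)) i : Part ℕ) ↔ i < k ∧ v = (Y i).toNat := by
    intro k i v
    by_cases h : i < k <;> simp [o, h, tb_cd]
  refine ⟨encode d, fun n => ?_⟩
  simp only [J, W, Nat.unpair_pair, ofNat_encode, hd, Set.mem_ofPred_eq, Part.dom_iff_mem]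
  constructor
  · rintro ⟨v, hv⟩
    obtain ⟨k, hk⟩ := (ev_eventually (l := atTop)
      (G := fun k i => (o (Nat.pair k (sg Y k)) i : Part ℕ)) (g := orc Y) (fun n v hv => by
        filter_upwards [eventually_gt_atTop n] with k hk
        exact (h3 _ _ _).2 ⟨hk, by simpa [orc] using hv⟩) c n v (hc ▸ hv)).exists
    exact ⟨k, v, hk⟩
  · rintro ⟨k, v, hv⟩
    have := (ev_eventually (l := (⊤ : Filter Unit)) (G := fun _ => orc Y) (fun n v hv =>
      Eventually.of_forall fun _ => by simp [orc, ((h3 _ _ _).1 hv).2]) c n v hv).exists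
    rw [hc] at this
    exact ⟨v, by simpa using this⟩

/-- The low basis theorem. -/
theorem low_basis {V : ℕ × ℕ → Prop} (hV : REPred V) (hne : ∃ Z : Om, ∀ s, ¬ V (s, sg Z s)) :
    ∃ Z : Om, (∀ s, ¬ V (s, sg Z s)) ∧ IsLow {n | Z n = true} := by
  obtain ⟨c, hc⟩ := rec_idx (R := fun z => V z.2.unpair.2.unpair)
    (re_comp hV (c_prim (by fun_prop)))
  have h1 : ∀ Z, ¬ J (Nat.pair c 0) Z ↔ ∀ s, ¬ V (s, sg Z s) := fun Z => by simp [J, hc]
  obtain ⟨Z, h2, h3⟩ := exists_J (Nat.pair c 0) (hne.imp fun Z => (h1 Z).2)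
  refine ⟨Z, (h1 Z).1 h2, fun f hf => ?_⟩
  rw [chi_orc] at hf
  obtain ⟨d, hd⟩ := dom_J Z f hf
  refine RecursiveIn.iff_nat.2 ((h3.comp (.of_prim (g := fun n => Nat.pair d n)
    (by fun_prop))).of_eq (h := fun n => Set.indicator {n | (f n).Dom} (fun _ => 1) n) fun n => ?_)
  rw [← hd]
  by_cases h : (f n).Dom
  · rw [Set.indicator_of_mem (by exact h), cd_true.2 h]; rfl
  · rw [Set.indicator_of_notMem (by exact h), Bool.eq_false_iff.2 (mt cd_true.1 h)]; rfl

end Pool.Agent.Lib.helper26.Low
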