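import Mathlib

namespace Pool.Agent.Lib.helper26.Berge

open Finset SimpleGraph

/-- Tutte-Berge, deficiency form: a matching (as an involution) missing at most `d` vertices, or a
barrier `S` with at least `#S + d + 2` odd pieces -/
theorem tb {V : Type} [Fintype V] [DecidableEq V] (G : SimpleGraph V) (d : ℕ)
    (hd : Even (Fintype.card V + d)) :
    (∃ f : V → V, (∀ v, f (f v) = v) ∧ (∀ v, f v ≠ v → G.Adj v (f v)) ∧ #{v | f v = v} ≤ d) ∨
    ∃ (S : Finset V) (K : Finset (Finset V)), #S + d + 2 ≤ #K ∧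
      (∀ C ∈ K, Odd #C ∧ Disjoint C S ∧ ∀ v ∈ C, ∀ w, G.Adj v w → w ∈ C ∨ w ∈ S) ∧
      (K : Set (Finset V)).PairwiseDisjoint id := by
  classical
  let G' : SimpleGraph (V ⊕ Fin d) :=
    { Adj a b := a ≠ b ∧ ∀ v w, a = .inl v → b = .inl w → G.Adj v w
      symm := ⟨fun a b h => ⟨h.1.symm, fun v w x y => (h.2 w v y x).symm⟩⟩
      loopless := ⟨fun a h => h.1 rfl⟩ }
  by_cases hM : ∃ M : G'.Subgraph, M.IsPerfectMatching
  · obtain ⟨M, hM⟩ := hM
    choose p h1 h2 using Subgraph.isPerfectMatching_iff.1 hM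
    have pp : ∀ x, p (p x) = x := fun x => (h2 _ _ (h1 x).symm).symm
    have pa : ∀ x, G'.Adj x (p x) := fun x => M.adj_sub (h1 x)
    refine Or.inl ⟨fun v => (p (.inl v)).elim id fun _ => v, fun v => ?_, fun v h => ?_, ?_⟩
    · rcases e : p (.inl v) with w | j
      · have := pp (.inl v)
        rw [e] at this
        simp [e, this]
      · simp [e]
    · rcases e : p (.inl v) with w | j
      · simpa [e] using (pa _).2 _ _ rfl e
      · simp [e] at h
    · refine (card_le_card_of_injOn (t := univ.map Function.Embedding.inr) (fun v => p (.inl v))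
        (fun v hv => ?_) fun v _ w _ e => ?_).trans (by simp)
      · rcases e : p (.inl v) with w | j
        · have := (pa (.inl v)).1
          simp only [coe_filter, mem_univ, true_and, Set.mem_setOf_eq, e, Sum.elim_inl, id] at hv
          exact (this (by rw [e, hv])).elim
        · simp [e]
      · have := congrArg p e
        simpa [pp] using this
  right
  rw [tutte] at hM
  push Not at hM
  obtain ⟨u, hu⟩ := hM
  unfold IsTutteViolator at hu
  set H := ((⊤ : G'.Subgraph).deleteVerts u).coe
  have par := odd_ncard_oddComponents H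
  have c1 : Nat.card ((⊤ : G'.Subgraph).deleteVerts u).verts + u.ncard = Fintype.card V + d := by
    rw [Nat.card_coe_set_eq, Subgraph.deleteVerts_verts, Subgraph.verts_top, ← Set.compl_eq_univ_diff,
      add_comm, Set.ncard_add_ncard_compl]
    simp
  have c2 : u.ncard + 2 ≤ H.oddComponents.ncard := by
    rw [Nat.odd_iff, Nat.odd_iff] at par; rw [Nat.even_iff] at hd; omega
  have adj : ∀ x y, H.Adj x y ↔ G'.Adj x.1 y.1 := fun x y => by
    have := x.2.2; have := y.2.2
    simp_all [H]
  have c3 : ∀ j, Sum.inr j ∈ u := fun j => by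
    by_contra k
    have : ∀ x, H.Reachable ⟨.inr j, trivial, k⟩ x := fun x => by
      by_cases e : (⟨.inr j, trivial, k⟩ : ((⊤ : G'.Subgraph).deleteVerts u).verts) = x
      · rw [e]
      · exact Adj.reachable ((adj _ _).2 ⟨fun c => e (Subtype.ext c), by simp⟩)
    have : H.oddComponents.ncard ≤ 1 := (Set.ncard_le_one (Set.toFinite _)).2 fun a _ b _ => by
      induction a using ConnectedComponent.ind
      induction b using ConnectedComponent.ind
      exact ConnectedComponent.sound ((this _).symm.trans (this _))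
    omega
  let C : H.ConnectedComponent → Finset V := fun c =>
    {v | ∃ h, H.connectedComponentMk ⟨.inl v, h⟩ = c}
  have mC : ∀ c v, v ∈ C c ↔ ∃ h, H.connectedComponentMk ⟨.inl v, h⟩ = c := by simp [C]
  have cC : ∀ c, #(C c) = c.supp.ncard := fun c => by
    rw [← Set.ncard_coe_finset]
    refine Set.ncard_congr (fun v hv => ⟨.inl v, ((mC c v).1 hv).1⟩)
      (fun v hv => ((mC c v).1 hv).2) (fun v w _ _ e => by simpa using e) ?_
    rintro ⟨v | j, h⟩ hv
    · exact ⟨v, (mC c v).2 ⟨h, hv⟩, rfl⟩
    · exact (h.2 (c3 j)).elim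
  have dj : ∀ c c', c ≠ c' → Disjoint (C c) (C c') := fun c c' n => disjoint_left.2 fun v h h' =>
    n (((mC _ _).1 h).2.symm.trans ((mC _ _).1 h').2)
  refine ⟨univ.filter fun v => Sum.inl v ∈ u, H.oddComponents.toFinite.toFinset.image C, ?_, ?_, ?_⟩
  · rw [card_image_of_injOn, ← Set.ncard_eq_toFinset_card]
    · refine le_trans (add_le_add_left ?_ 2) c2
      rw [Set.ncard_eq_toFinset_card' u]
      refine le_trans (le_of_eq ?_) (card_le_card (s := disjSum {v | Sum.inl v ∈ u} univ) ?_)
      · simp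
      · rintro (v | j) <;> simp [c3]
    · intro c hc c' _ e
      by_contra n
      have := dj c c' n
      rw [← e, disjoint_self, bot_eq_empty] at this
      have o : Odd c.supp.ncard := by simpa using hc
      rw [← cC, this] at o
      simp at o
  · intro D hD
    obtain ⟨c, hc, rfl⟩ := mem_image.1 hD
    refine ⟨by rw [cC]; simpa using hc, disjoint_left.2 fun v h h' =>
      ((mC _ _).1 h).1.2 (by simpa using h'), fun v hv w a => ?_⟩
    by_cases e : Sum.inl w ∈ u
    · simp [e]
    · obtain ⟨h, rfl⟩ := (mC _ _).1 hv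
      refine Or.inl ((mC _ _).2 ⟨⟨trivial, e⟩, ConnectedComponent.sound (Adj.reachable
        ((adj _ _).2 ⟨by simpa using a.ne', ?_⟩))⟩)
      rintro _ _ ⟨⟩ ⟨⟩; exact a.symm
  · intro D hD D' hD' n
    obtain ⟨c, -, rfl⟩ := mem_image.1 hD
    obtain ⟨c', -, rfl⟩ := mem_image.1 hD'
    exact dj c c' fun e => n (by rw [e])

end Pool.Agent.Lib.helper26.Berge
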