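import Pool.Agent.Lib.helper26.Low

/-! Bijective numberings from decidable ones, and more closure of oracle computations. -/

namespace Pool.Agent.Lib.helper26.Low

open Encodable Pool.Agent.Lib.PR Pool.Agent.Lib.helper21.CPred

attribute [local irreducible] Primrec Computable

theorem cfind' {α : Type} [Primcodable α] {P : α → ℕ → Prop}
    (hP : ComputablePred fun p : α × ℕ => P p.1 p.2) (hex : ∀ a, ∃ n, P a n) :
    ∃ f : α → ℕ, Computable f ∧ ∀ a, P a (f a) ∧ ∀ m < f a, ¬ P a m := by
  classical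
  exact ⟨fun a => Nat.find (hex a), Computable.find hP hex, fun a =>
    ⟨Nat.find_spec (hex a), fun m hm => Nat.find_min (hex a) hm⟩⟩

/-- a numbering with decidable equality of an infinite type yields a bijective numbering -/
theorem pres' {F α : Type} [Infinite F] [Primcodable α] (d : α) (ν : α → F)
    (hs : Function.Surjective ν) (heq : ComputablePred fun p : α × α => ν p.1 = ν p.2) :
    ∃ e : ℕ ≃ F, ∃ r : ℕ → α, ∃ i : α → ℕ, Computable r ∧ Computable i ∧
      (∀ n, e n = ν (r n)) ∧ ∀ a, e.symm (ν a) = i a := by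
  classical
  let o : ℕ → α := fun n => (decode (α := α) n).getD d
  have ho : Primrec o := by unfold o; fun_prop
  let μ : ℕ → F := fun n => ν (o n)
  have hμ : ComputablePred fun p : ℕ × ℕ => μ p.2 = μ p.1 :=
    ccomp heq (f := fun p : ℕ × ℕ => (o p.2, o p.1)) (c_prim (by fun_prop))
  let N : ℕ → Prop := fun n => ∀ m < n, ¬ μ m = μ n
  have hN : ComputablePred N := call (p := fun n m => ¬ μ m = μ n) hμ.not Computable.id
  have hinj : ∀ a b, N a → N b → μ a = μ b → a = b := fun a b ha hb h => by
    rcases lt_trichotomy a b with h1 | h1 | h1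
    · exact absurd h (hb a h1)
    · exact h1
    · exact absurd h.symm (ha b h1)
  obtain ⟨l, hl, hl2⟩ := cfind' (P := fun (a : α) m => μ m = ν a)
    (ccomp heq (f := fun p : α × ℕ => (o p.2, p.1)) (c_prim (by fun_prop)))
    (fun a => ⟨encode a, by simp [μ, o]⟩)
  have hlN : ∀ a, N (l a) := fun a m hm h => (hl2 a).2 m hm (h.trans (hl2 a).1)
  have hinf : {n | N n}.Infinite := fun hf => by
    have : (Set.univ : Set F) ⊆ μ '' {n | N n} := fun y _ => by
      obtain ⟨a, rfl⟩ := hs y
      exact ⟨l a, hlN a, (hl2 a).1⟩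
    exact Set.infinite_univ ((hf.image μ).subset this)
  have hc : Computable fun n => Nat.count N n :=
    (helper21.Fn.ccount (p := fun (_ : ℕ) m => N m) (ccomp hN Computable.snd)
      Computable.id).of_eq fun n => (Nat.count_eq_card_filter_range N n).symm
  obtain ⟨t, ht, ht2⟩ := cfind' (P := fun (n : ℕ) m => N m ∧ Nat.count N m = n)
    (cand (ccomp hN Computable.snd) (ceq (hc.comp Computable.snd) Computable.fst))
    (fun n => ⟨Nat.nth N n, Nat.nth_mem_of_infinite hinf n, Nat.count_nth_of_infinite hinf n⟩)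
  have key : ∀ a, t (Nat.count N (l a)) = l a := fun a =>
    Nat.count_injective (ht2 _).1.1 (hlN a) (ht2 _).1.2
  have hb : Function.Bijective fun n => μ (t n) := by
    constructor
    · intro a b h
      have := hinj _ _ (ht2 a).1.1 (ht2 b).1.1 h
      rw [← (ht2 a).1.2, ← (ht2 b).1.2, this]
    · intro y
      obtain ⟨a, rfl⟩ := hs y
      exact ⟨Nat.count N (l a), by simp only [key]; exact (hl2 a).1⟩
  refine ⟨Equiv.ofBijective _ hb, fun n => o (t n), fun a => Nat.count N (l a),
    ho.to_comp.comp ht, hc.comp hl, fun n => rfl, fun a => ?_⟩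
  rw [Equiv.symm_apply_eq]
  simp only [Equiv.ofBijective_apply, key]
  exact (hl2 a).1.symm

variable {O : Set (ℕ →. ℕ)} {g h : ℕ → ℕ}

theorem CI.find (hh : CI O h) (hg : ∀ a, h (Nat.pair a (g a)) = 0 ∧
    ∀ m < g a, h (Nat.pair a m) ≠ 0) : CI O g :=
  (Nat.RecursiveIn.rfind hh).of_eq_tot fun a =>
    Nat.mem_rfind.2 ⟨by simp [(hg a).1], fun {m} hm => by simp [(hg a).2 m hm]⟩

theorem CI.oracle (f : ℕ → ℕ) : CI {PFun.lift f} f := Nat.RecursiveIn.oracle _ rfl

theorem CI.red {f : ℕ → ℕ} (h : CI {PFun.lift f} g) :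
    TuringReducible (PFun.lift g) (PFun.lift f) := RecursiveIn.iff_nat.2 h

theorem CI.tab (hh : CI O h) : CI O fun n => encode ((List.range n).map h) := by
  have h1 : Primrec fun w : ℕ =>
      encode ((decode (α := List ℕ) w.unpair.1.unpair.2).getD [] ++ [w.unpair.2]) := by fun_prop
  refine CI.rec ((CI.of_prim h1).comp ((CI.of_prim Primrec.id).pair
    (hh.comp (.of_prim (g := fun q => q.unpair.1) (by fun_prop))))) fun n => ?_
  simp [List.range_succ]

end Pool.Agent.Lib.helper26.Low
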