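import Pool.Agent.Lib.lead.CXGraphRed

/-! Colourability with the number of colours in the input is in NP. -/

namespace Pool.Agent.Lib.CX

theorem col_NP : InNP fun a : Gr × ℕ => a.1.G.Colorable a.2 := by
  refine InNP.of_cert' (fun a (c : List ℕ) => (∀ i < a.1.n, c.getD i 0 < a.2) ∧
      ∀ i < a.1.n, ∀ j < a.1.n, a.1.adjB i j = true → c.getD i 0 ≠ c.getD j 0)
    (fun a => a.1.1.length * (size a.2 + 1) + 2) (by fun_prop) (by fun_prop) ?_ ?_
  · rintro a c ⟨h1, h2⟩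
    exact ⟨SimpleGraph.Coloring.mk (fun i => ⟨c.getD i 0, h1 i i.2⟩) fun {u v} h e =>
      h2 u u.2 v v.2 ((Gr.adjB_iff _ _ _).2 h) (congrArg Fin.val e)⟩
  · rintro a ⟨C⟩
    refine ⟨List.ofFn fun i => (C i).1, (size_list_le (B := size a.2) ?_).trans (by simp), fun i hi => ?_,
      fun i hi j hj h => ?_⟩
    · simp only [List.mem_ofFn]
      rintro _ ⟨i, rfl⟩
      exact size_nat_mono (C i).2.le
    · simp [hi]
    · simpa [hi, hj, Fin.val_inj] using C.valid ((Gr.adjB_iff _ ⟨i, hi⟩ ⟨j, hj⟩).1 h)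

end Pool.Agent.Lib.CX
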