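import Pool.Agent.H.MP_2e8011_lc.B
import Pool.Agent.Lib.lead.CXRat

/-! Hamiltonian cycle is NP-hard; cyclic orderings from Hamiltonian cycles; integers as rationals. -/

namespace Pool.Agent.Lib.CX
open Pool.Agent.Lib.helper7 SimpleGraph

theorem ham_hard : NPHard fun a : Gr => Ham a.G :=
  NPHard.of_sat3 _ ((H.MP_2e8011_lc.pt_gr _ 1).comp H.MP_2e8011_lc.pt_psi) (H.MP_2e8011_lc.red 1 le_rfl)

/-- a Hamiltonian cycle as a cyclic list `c 0, …, c (n-1), c n = c 0` -/
theorem ham_list {a : Gr} (h : Ham a.G) : 3 ≤ a.n ∧ ∃ c : ℕ → ℕ, c a.n = c 0 ∧ (∀ k, c k < a.n) ∧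
    (∀ i < a.n, ∀ j < a.n, c i = c j → i = j) ∧ ∀ k < a.n, a.adjB (c k) (c (k + 1)) = true := by
  obtain ⟨v, p, hp⟩ := h
  have hl : p.length = a.n := by simpa using hp.length_eq
  have h3 := hp.isCycle.three_le_length
  refine ⟨by omega, fun k => (p.getVert k).1, by simp [← hl], fun k => (p.getVert k).2, fun i hi j hj e => ?_,
    fun k hk => (a.adjB_iff _ _).2 (p.adj_getVert_succ (by omega))⟩
  exact hp.isCycle.getVert_injOn' (by simp; omega) (by simp; omega) (Fin.ext e)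

@[fun_prop] theorem PT.intCastRat {α : Type} [Enc α] {f : α → ℤ} (hf : PT f) : PT fun a => (f a : ℚ) :=
  (show PT fun a => (f a, (1 : ℕ)) by fun_prop).cast fun _ => rfl

end Pool.Agent.Lib.CX
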