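import Mathlib

/-! Edge contraction problems. -/

namespace Pool.Agent.Lib.CX

/-- contraction of the edge `uv`: the vertex `v` is merged into `u` -/
def contr {V : Type} (G : SimpleGraph V) (u v : V) : SimpleGraph {w // w ≠ v} :=
  SimpleGraph.fromRel fun a b => G.Adj a b ∨ (a.1 = u ∧ G.Adj v b)

/-- at most `k` edge contractions turn `G` into a graph with property `P` -/
def Contr (P : ∀ V : Type, SimpleGraph V → Prop) : ℕ → ∀ V : Type, SimpleGraph V → Prop
  | 0, V, G => P V G
  | k + 1, V, G => P V G ∨ ∃ u v, G.Adj u v ∧ Contr P k _ (contr G u v)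

end Pool.Agent.Lib.CX
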