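import Pool.Agent.H.MP_5b3c88_nt.G

/-! Jacobi triple product, Jacobi's cube identity and theta sums for nilpotent `q`. -/

namespace Pool.Agent.Lib.JTP

open Finset Function Pool.Agent.H.MP_5b3c88_nt

variable {A : Type*} [CommRing A]

/-- `(t;t)_n` -/
def P (t : A) (n : ℕ) : A := ∏ j ∈ range n, (1 - t ^ (j + 1))

/-- triangular numbers on `ℤ` -/
def T (k : ℤ) : ℕ := (k * (k + 1) / 2).toNat

theorem two_T (k : ℤ) : 2 * (T k : ℤ) = k * (k + 1) := by
  have h0 : 0 ≤ k * (k + 1) := by rcases le_or_gt 0 k with h | h <;> nlinarith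
  rw [T, Int.toNat_of_nonneg (Int.ediv_nonneg h0 (by norm_num))]
  exact Int.two_mul_ediv_two_of_even (Int.even_mul_succ_self k)

theorem qbin (q a : A) (m : ℕ) : ∏ i ∈ range m, (1 + a * q ^ i)
    = ∑ j ∈ range (m + 1), a ^ j * q ^ (j.choose 2) * gb q m j := by
  induction m generalizing a with
  | zero => simp
  | succ m ih =>
    have e : ∏ i ∈ range m, (1 + a * q ^ (i + 1)) = ∏ i ∈ range m, (1 + a * q * q ^ i) :=
      prod_congr rfl fun i _ => by ring
    rw [prod_range_succ', e, ih, sum_range_succ' _ (m + 1)]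
    simp only [gb_succ, mul_add, sum_add_distrib]
    have e2 : ∑ j ∈ range (m + 1), a ^ (j + 1) * q ^ ((j + 1).choose 2) * (q ^ (j + 1) * gb q m (j + 1))
        + 1 = ∑ j ∈ range (m + 1), (a * q) ^ j * q ^ (j.choose 2) * gb q m j := by
      rw [sum_range_succ, gb_gt q m (m + 1) (by omega), sum_range_succ' _ m]
      simp only [mul_zero, add_zero, pow_zero, gb_zero, mul_one, Nat.choose_zero_succ]
      congr 1
      exact sum_congr rfl fun j _ => by ring
    have e3 : ∑ j ∈ range (m + 1), a ^ (j + 1) * q ^ ((j + 1).choose 2) * gb q m j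
        = (∑ j ∈ range (m + 1), (a * q) ^ j * q ^ (j.choose 2) * gb q m j) * a := by
      rw [sum_mul]
      refine sum_congr rfl fun j _ => ?_
      rw [Nat.choose_succ_succ' j 1, Nat.choose_one_right]
      ring
    simp only [pow_zero, gb_zero, mul_one, Nat.choose_zero_succ]
    rw [add_assoc, e2, e3]
    ring

/-- the general term of Ramanujan's `f(a,b)` -/
def W (a b : A) (k : ℤ) : A := a ^ T k * b ^ T (-k)

theorem W_step (a b : A) (k : ℤ) (n i : ℕ) (h : (i : ℤ) = n + k + 1) :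
    b * (a * b) ^ n * W a b (k + 1) = (a * b) ^ i * W a b k := by
  have h1 := two_T (k + 1)
  have h2 := two_T k
  have h3 := two_T (-(k + 1))
  have h4 := two_T (-k)
  have e1 : n + T (k + 1) = i + T k := by zify; nlinarith
  have e2 : 1 + n + T (-(k + 1)) = i + T (-k) := by zify; nlinarith
  simp only [W, mul_pow]
  calc _ = a ^ (n + T (k + 1)) * b ^ (1 + n + T (-(k + 1))) := by ring
    _ = _ := by rw [e1, e2]; ring

theorem jtp_fin (a b : A) (m n : ℕ) :
    (∏ i ∈ range m, (1 + a * (a * b) ^ i)) * ∏ i ∈ range n, (1 + b * (a * b) ^ i)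
      = ∑ j ∈ range (m + n + 1), W a b (j - n) * gb (a * b) (m + n) j := by
  induction n with
  | zero =>
    rw [prod_range_zero, mul_one, qbin]
    refine sum_congr rfl fun j _ => ?_
    have h2 := two_T j
    have h4 := two_T (-j)
    have h5 : 2 * (j.choose 2 : ℤ) = j * (j - 1) := by
      induction j with
      | zero => simp
      | succ j _ =>
        have := Nat.add_one_mul_choose_eq j 1
        rw [Nat.choose_one_right] at this
        push_cast
        zify at this
        linarith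
    have e1 : T j = j + j.choose 2 := by zify; nlinarith
    have e2 : T (-j) = j.choose 2 := by zify; nlinarith
    simp only [W, Nat.cast_zero, sub_zero, e1, e2, add_zero]
    ring
  | succ n ih =>
    rw [prod_range_succ _ n, ← mul_assoc, ih, ← add_assoc m n 1, sum_range_succ' _ (m + n + 1)]
    simp only [gb_succ, mul_add, sum_add_distrib, mul_one, gb_zero]
    have e1 : ∀ j : ℕ, ((j + 1 : ℕ) : ℤ) - ((n + 1 : ℕ) : ℤ) = j - n := fun j => by push_cast; ring
    simp only [e1]
    have key : (∑ j ∈ range (m + n + 1), W a b (j - n) * gb (a * b) (m + n) j) * (b * (a * b) ^ n)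
        = ∑ j ∈ range (m + n + 1), W a b (j - n) * ((a * b) ^ (j + 1) * gb (a * b) (m + n) (j + 1))
          + W a b (((0 : ℕ) : ℤ) - ((n + 1 : ℕ) : ℤ)) := by
      rw [sum_mul, sum_range_succ' _ (m + n), sum_range_succ _ (m + n),
        gb_gt _ (m + n) (m + n + 1) (by omega)]
      simp only [mul_zero, add_zero, gb_zero, mul_one]
      congr 1
      · refine sum_congr rfl fun j _ => ?_
        have := W_step a b (j - n) n (j + 1) (by push_cast; ring)
        rw [show ((j + 1 : ℕ) : ℤ) - n = j - n + 1 by push_cast; ring]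
        linear_combination gb (a * b) (m + n) (j + 1) * this
      · have := W_step a b (((0 : ℕ) : ℤ) - ((n + 1 : ℕ) : ℤ)) n 0 (by push_cast; ring)
        rw [show ((0 : ℕ) : ℤ) - n = ((0 : ℕ) : ℤ) - ((n + 1 : ℕ) : ℤ) + 1 by push_cast; ring]
        linear_combination this
    linear_combination key

theorem prod_stab (f : ℕ → A) (N K : ℕ) (h : N ≤ K) (hf : ∀ i, N ≤ i → f i = 1) :
    ∏ i ∈ range K, f i = ∏ i ∈ range N, f i :=
  (prod_subset (range_mono h) fun i _ hi => hf i (by simpa using hi)).symm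

theorem pow_zero_of_le {q : A} {N i : ℕ} (h : q ^ N = 0) (hi : N ≤ i) : q ^ i = 0 :=
  pow_eq_zero_of_le hi h

theorem P_stab {q : A} {N K : ℕ} (h : q ^ N = 0) (hK : N ≤ K) : P q K = P q N :=
  prod_stab _ _ _ hK fun i hi => by rw [pow_zero_of_le h (by omega), sub_zero]

theorem P_unit {q : A} {N : ℕ} (h : q ^ N = 0) (K : ℕ) : IsUnit (P q K) :=
  IsUnit.prod_iff.2 fun i _ => IsNilpotent.isUnit_one_sub
    ⟨N, by rw [← pow_mul]; exact pow_zero_of_le h (Nat.le_mul_of_pos_left N (Nat.succ_pos i))⟩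

theorem W_zero (a b : A) {N : ℕ} (h : (a * b) ^ N = 0) (k : ℤ) (hk : (N : ℤ) + 1 ≤ |k|) :
    W a b k = 0 := by
  have h2 := two_T k
  have h4 := two_T (-k)
  have h0 : (0 : ℤ) ≤ N := Int.natCast_nonneg N
  have : N ≤ T k ∧ N ≤ T (-k) := by
    rcases abs_cases k with ⟨e, _⟩ | ⟨e, _⟩ <;> rw [e] at hk <;> constructor <;> zify <;> nlinarith
  obtain ⟨c, hc⟩ := Nat.exists_eq_add_of_le this.1
  obtain ⟨d, hd⟩ := Nat.exists_eq_add_of_le this.2
  rw [W, hc, hd]
  linear_combination a ^ c * b ^ d * h - a ^ c * b ^ d * mul_pow a b N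

/-- Jacobi's triple product identity for nilpotent `a * b`. -/
theorem jtp (a b : A) (N : ℕ) (h : (a * b) ^ N = 0) :
    P (a * b) N * ((∏ i ∈ range N, (1 + a * (a * b) ^ i)) * ∏ i ∈ range N, (1 + b * (a * b) ^ i))
      = ∑ᶠ k : ℤ, W a b k := by
  have s : ∀ c : A, ∏ i ∈ range (2 * N), (1 + c * (a * b) ^ i) = ∏ i ∈ range N, (1 + c * (a * b) ^ i) :=
    fun c => prod_stab _ _ _ (by omega) fun i hi => by rw [pow_zero_of_le h hi]; simp
  rw [← s a, ← s b, jtp_fin, mul_sum,
    finsum_eq_sum_of_support_subset (s := (range (2 * N + 2 * N + 1)).image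
      fun j : ℕ => (j : ℤ) - (2 * N : ℕ)) _ ?_, sum_image (fun x _ y _ hxy => by simpa using hxy)]
  · refine sum_congr rfl fun j hj => ?_
    by_cases hk : (N : ℤ) + 1 ≤ |(j : ℤ) - (2 * N : ℕ)|
    · rw [W_zero a b h _ hk]; simp
    · have hj' := mem_range.1 hj
      rw [not_le, ← Int.lt_add_one_iff.symm, abs_le] at hk
      have g := gb_prod (a * b) j (2 * N + 2 * N - j)
      rw [show j + (2 * N + 2 * N - j) = 2 * N + 2 * N by omega] at g
      change _ * (P _ _ * P _ _) = P _ _ at g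
      rw [P_stab h (by omega), P_stab h (K := 2 * N + 2 * N - j) (by omega),
        P_stab h (K := 2 * N + 2 * N) (by omega)] at g
      have g2 : gb (a * b) (2 * N + 2 * N) j * P (a * b) N = 1 :=
        (P_unit h N).mul_right_cancel (by rw [mul_assoc, g, one_mul])
      linear_combination W a b (j - (2 * N : ℕ)) * g2
  · intro k hk
    have : ¬ ((N : ℤ) + 1 ≤ |k|) := fun hh => hk (W_zero a b h k hh)
    rw [not_le, ← Int.lt_add_one_iff.symm, abs_le] at this
    simp only [coe_image, coe_range, Set.mem_image, Set.mem_Iio]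
    exact ⟨(k + (2 * N : ℕ)).toNat, by omega, by omega⟩

/-! ### theta sums -/

/-- `∑ c(i) x^{E(i)}` -/
noncomputable def Th {ι : Type*} (x : A) (E c : ι → ℤ) : A := ∑ᶠ i, (c i : A) * x ^ (E i).toNat

def Good {ι : Type*} (E : ι → ℤ) : Prop := (∀ i, 0 ≤ E i) ∧ ∀ n : ℤ, {i | E i < n}.Finite

variable {ι κ : Type*}

theorem Good.of_abs {E : ℤ → ℤ} (h0 : ∀ k, 0 ≤ E k) (h : ∀ k, |k| ≤ E k + 1) : Good E :=
  ⟨h0, fun n => (Set.finite_Icc (-n) n).subset fun k hk => by
    have := h k
    have h2 : E k < n := hk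
    rw [Set.mem_Icc, ← abs_le]; omega⟩

theorem Good.prod {E : ι → ℤ} {E' : κ → ℤ} (h : Good E) (h' : Good E') :
    Good fun p : ι × κ => E p.1 + E' p.2 :=
  ⟨fun p => add_nonneg (h.1 _) (h'.1 _), fun n => ((h.2 n).prod (h'.2 n)).subset fun p hp => by
    have h1 := h.1 p.1
    have h2 := h'.1 p.2
    have h3 : E p.1 + E' p.2 < n := hp
    exact ⟨show E p.1 < n by omega, show E' p.2 < n by omega⟩⟩

theorem Good.comp {E : ι → ℤ} (h : Good E) {g : κ → ι} (hg : Injective g) : Good (E ∘ g) :=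
  ⟨fun _ => h.1 _, fun n => Set.Finite.preimage (f := g) hg.injOn (h.2 n)⟩

theorem Good.fin {E : ι → ℤ} (h : Good E) {x : A} {N : ℕ} (hx : x ^ N = 0) (c : ι → A) :
    HasFiniteSupport fun i => c i * x ^ (E i).toNat :=
  (h.2 N).subset fun i hi => by
    by_contra hc
    have h2 : ¬ E i < N := hc
    exact hi (by simp only [pow_zero_of_le hx (show N ≤ (E i).toNat by omega), mul_zero])

theorem Th_mul {E c : ι → ℤ} {E' c' : κ → ℤ} (h : Good E) (h' : Good E') {x : A} {N : ℕ}
    (hx : x ^ N = 0) : Th x E c * Th x E' c'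
      = Th x (fun p : ι × κ => E p.1 + E' p.2) (fun p => c p.1 * c' p.2) := by
  rw [Th, Th, Th, finsum_curry _ ((h.prod h').fin hx _), finsum_mul' _ _ (h.fin hx _)]
  refine finsum_congr fun i => ?_
  rw [mul_finsum' _ _ (h'.fin hx _)]
  refine finsum_congr fun j => ?_
  rw [Int.toNat_add (h.1 i) (h'.1 j)]
  push_cast; ring

theorem Th_add {E : ι → ℤ} (c c' : ι → ℤ) (h : Good E) {x : A} {N : ℕ} (hx : x ^ N = 0) :
    Th x E c + Th x E c' = Th x E fun i => c i + c' i := by
  rw [Th, Th, Th, ← finsum_add_distrib (h.fin hx _) (h.fin hx _)]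
  exact finsum_congr fun i => by push_cast; ring

theorem Th_smul {E : ι → ℤ} (c : ι → ℤ) (a : ℤ) (h : Good E) {x : A} {N : ℕ} (hx : x ^ N = 0) :
    (a : A) * Th x E c = Th x E fun i => a * c i := by
  rw [Th, Th, mul_finsum' _ _ (h.fin hx _)]
  exact finsum_congr fun i => by push_cast; ring

theorem Th_equiv (e : κ ≃ ι) (x : A) {E c : ι → ℤ} {E' c' : κ → ℤ} (h1 : ∀ i, E' i = E (e i))
    (h2 : ∀ i, c' i = c (e i)) : Th x E' c' = Th x E c := by
  rw [Th, Th, ← finsum_comp_equiv e]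
  exact finsum_congr fun i => by rw [h1, h2]

/-- a sign-reversing symmetry -/
theorem Th_anti (e : ι ≃ ι) {E c : ι → ℤ} (h : Good E) {x : A} {N : ℕ} (hx : x ^ N = 0)
    (h1 : ∀ i, E i = E (e i)) (h2 : ∀ i, c i + c (e i) = 0) : 2 * Th x E c = 0 := by
  rw [two_mul]
  nth_rewrite 2 [← Th_equiv e x (c' := fun i => c (e i)) h1 fun _ => rfl]
  rw [Th_add _ _ h hx]
  simp [Th, h2]

theorem Th_fintype [Fintype ι] {E c : ι × κ → ℤ} (h : Good E) {x : A} {N : ℕ} (hx : x ^ N = 0) :
    Th x E c = ∑ i, Th x (fun j => E (i, j)) fun j => c (i, j) := by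
  rw [Th, finsum_curry _ (h.fin hx _), finsum_eq_sum_of_fintype]
  rfl

theorem Th_pow (x : A) (m : ℕ) {E : ι → ℤ} (c : ι → ℤ) (h : ∀ i, 0 ≤ E i) :
    Th (x ^ m) E c = Th x (fun i => m * E i) c :=
  finsum_congr fun i => by
    rw [← pow_mul]
    congr 2
    have := h i
    zify
    rw [Int.toNat_of_nonneg this, Int.toNat_of_nonneg (by positivity)]

/-- the sign `(-1)^k` -/
def sg (k : ℤ) : ℤ := if Even k then 1 else -1

theorem sg_add (k l : ℤ) : sg (k + l) = sg k * sg l := by
  unfold sg; by_cases h1 : Even k <;> by_cases h2 : Even l <;> simp [h1, h2, parity_simps]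

theorem sg_congr {k l : ℤ} (h : Even (k - l)) : sg k = sg l := by
  unfold sg; simp only [Int.even_sub.1 h]

theorem sg_succ {k l : ℤ} (h : Odd (k - l)) : sg k = -sg l := by
  have : k = l + (k - l) := by ring
  rw [this, sg_add, show sg (k - l) = -1 from if_neg (Int.not_even_iff_odd.2 h)]; ring

theorem sg_T (k : ℤ) : (-1 : A) ^ (T k + T (-k)) = (sg k : A) := by
  have h2 := two_T k
  have h4 := two_T (-k)
  have e : ((T k + T (-k) : ℕ) : ℤ) = k * k := by push_cast; nlinarith
  unfold sg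
  split_ifs with h
  · rw [Even.neg_one_pow]
    · simp
    · rw [← Int.even_coe_nat, e]; exact h.mul_right k
  · rw [Odd.neg_one_pow]
    · simp
    · rw [← Int.odd_coe_nat, e]
      exact (Int.not_even_iff_odd.1 h).mul (Int.not_even_iff_odd.1 h)

/-- `f(x^r, x^s)` -/
theorem jtp_pos (x : A) (r s N : ℕ) (h : (x ^ (r + s)) ^ N = 0) :
    P (x ^ (r + s)) N * ((∏ i ∈ range N, (1 + x ^ (r + (r + s) * i))) *
      ∏ i ∈ range N, (1 + x ^ (s + (r + s) * i)))
      = Th x (fun k => r * T k + s * T (-k)) fun _ => 1 := by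
  have := jtp (x ^ r) (x ^ s) N (by rwa [← pow_add])
  simp only [← pow_add, ← pow_mul] at this ⊢
  rw [this]
  refine finsum_congr fun k => ?_
  rw [W, ← pow_mul, ← pow_mul, ← pow_add]
  simp only [Int.cast_one, one_mul]
  congr 1

/-- `f(-x^r, -x^s)` -/
theorem jtp_neg (x : A) (r s N : ℕ) (h : (x ^ (r + s)) ^ N = 0) :
    P (x ^ (r + s)) N * ((∏ i ∈ range N, (1 - x ^ (r + (r + s) * i))) *
      ∏ i ∈ range N, (1 - x ^ (s + (r + s) * i)))
      = Th x (fun k => r * T k + s * T (-k)) sg := by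
  have := jtp (-x ^ r) (-x ^ s) N (by rwa [neg_mul_neg, ← pow_add])
  rw [neg_mul_neg] at this
  simp only [neg_mul, ← sub_eq_add_neg, ← pow_add, ← pow_mul] at this ⊢
  rw [this]
  refine finsum_congr fun k => ?_
  rw [W, neg_pow, neg_pow (x ^ s), ← pow_mul, ← pow_mul, ← sg_T, pow_add,
    show ((r : ℤ) * T k + s * T (-k)).toNat = r * T k + s * T (-k) by
      rw [← Nat.cast_mul, ← Nat.cast_mul, ← Nat.cast_add, Int.toNat_natCast]]
  ring

theorem good_T : Good fun k => (T k : ℤ) :=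
  Good.of_abs (fun _ => by positivity) fun k => by
    have := two_T k
    rcases abs_cases k with ⟨e, _⟩ | ⟨e, _⟩ <;> rw [e] <;> nlinarith

theorem one_add_pow_sq {e : A} (he : e ^ 2 = 0) (n : ℕ) : (1 + e) ^ n = 1 + n * e := by
  induction n with
  | zero => simp
  | succ n ih => rw [pow_succ, ih]; push_cast; linear_combination (n : A) * he

theorem dvd_prod_sub {e : A} (s : Finset ι) (f g : ι → A) (h : ∀ i, e ∣ f i - g i) :
    e ∣ ∏ i ∈ s, f i - ∏ i ∈ s, g i := by
  classical
  induction s using Finset.induction_on with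
  | empty => simp
  | insert a s ha ih =>
    rw [prod_insert ha, prod_insert ha]
    obtain ⟨u, hu⟩ := h a
    obtain ⟨v, hv⟩ := ih
    exact ⟨f a * v + u * ∏ i ∈ s, g i, by linear_combination f a * hv + (∏ i ∈ s, g i) * hu⟩

theorem jacobi_aux (x e : A) (he : e ^ 2 = 0) (N : ℕ) (h : x ^ N = 0) :
    e * P x N ^ 3 = e * Th x (fun k => T k) (fun k => sg k * k) + Th x (fun k => T k) sg := by
  have ab : -(x * (1 + e)) * -(1 - e) = x := by linear_combination -x * he
  have := jtp (-(x * (1 + e))) (-(1 - e)) (N + 1) (by rw [ab, pow_succ, h, zero_mul])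
  rw [ab, prod_range_succ' (fun i => 1 + -(1 - e) * x ^ i), P_stab h (Nat.le_succ N)] at this
  obtain ⟨u, hu⟩ := dvd_prod_sub (e := e) (range (N + 1)) (fun i => 1 + -(x * (1 + e)) * x ^ i)
    (fun i => 1 - x ^ (i + 1)) fun i => ⟨-x ^ (i + 1), by ring⟩
  obtain ⟨v, hv⟩ := dvd_prod_sub (e := e) (range N) (fun i => 1 + -(1 - e) * x ^ (i + 1))
    (fun i => 1 - x ^ (i + 1)) fun i => ⟨x ^ (i + 1), by ring⟩
  change _ - P x (N + 1) = _ at hu
  change _ - P x N = _ at hv
  rw [P_stab h (Nat.le_succ N)] at hu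
  rw [eq_add_of_sub_eq hu, eq_add_of_sub_eq hv] at this
  have r : ∑ᶠ k, W (-(x * (1 + e))) (-(1 - e)) k
      = e * Th x (fun k => T k) (fun k => sg k * k) + Th x (fun k => T k) sg := by
    rw [Th, Th, mul_finsum' _ _ (good_T.fin h _), ← finsum_add_distrib ?_ (good_T.fin h _)]
    · refine finsum_congr fun k => ?_
      have h2 := two_T k
      have h4 := two_T (-k)
      have e1 : (T k : A) - T (-k) = (k : A) := by
        have : (T k : ℤ) - T (-k) = k := by nlinarith
        exact_mod_cast congrArg (Int.cast : ℤ → A) this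
      rw [W, neg_pow, neg_pow (1 - e), mul_pow, one_add_pow_sq he, sub_eq_add_neg,
        one_add_pow_sq (e := -e) (by rw [neg_sq, he]), Int.toNat_natCast]
      push_cast
      rw [← sg_T, pow_add, ← e1]
      linear_combination -(-1) ^ T k * (-1) ^ T (-k) * x ^ T k * T k * T (-k) * he
    · simpa only [← mul_assoc] using good_T.fin h fun k => e * ((sg k * k : ℤ) : A)
  rw [← r, ← this]
  linear_combination -P x N * (u * P x N + v * P x N + e * u * v) * he

/-- Jacobi: `(x;x)^3 = ∑_{k ∈ ℤ} (-1)^k k x^{k(k+1)/2}` -/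
theorem jacobi (x : A) (N : ℕ) (h : x ^ N = 0) :
    P x N ^ 3 = Th x (fun k => T k) fun k => sg k * k := by
  let f : A →+* DualNumber A := algebraMap A (DualNumber A)
  have hx : f x ^ N = 0 := by rw [← map_pow, h, map_zero]
  have := jacobi_aux (f x) DualNumber.eps (by rw [sq, DualNumber.eps_mul_eps]) N hx
  have m : ∀ c : ℤ → ℤ, Th (f x) (fun k => T k) c = f (Th x (fun k => T k) c) := fun c => by
    rw [Th, Th, map_finsum f (good_T.fin h _)]
    simp
  have p : P (f x) N ^ 3 = f (P x N ^ 3) := by simp [P]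
  rw [m, m, p] at this
  have := congrArg TrivSqZeroExt.snd this
  simpa [f, TrivSqZeroExt.algebraMap_eq_inl] using this

end Pool.Agent.Lib.JTP
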