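import Pool.Agent.Lib.helper26.JTP

/-! Consequences of the triple product: pentagonal, φ, ψ, `f₂⁵/f₁²`, support classes. -/

namespace Pool.Agent.Lib.JTP

open Finset Function

variable {A : Type*} [CommRing A]

theorem prod_two (f : ℕ → A) (N : ℕ) :
    ∏ i ∈ range (2 * N), f i = (∏ i ∈ range N, f (2 * i)) * ∏ i ∈ range N, f (2 * i + 1) := by
  induction N with
  | zero => simp
  | succ N ih =>
    rw [mul_add, mul_one, prod_range_succ, prod_range_succ, ih, prod_range_succ, prod_range_succ]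
    ring

theorem prod_three (f : ℕ → A) (N : ℕ) :
    ∏ i ∈ range (3 * N), f i = (∏ i ∈ range N, f (3 * i)) * (∏ i ∈ range N, f (3 * i + 1))
      * ∏ i ∈ range N, f (3 * i + 2) := by
  induction N with
  | zero => simp
  | succ N ih =>
    rw [mul_add, mul_one, prod_range_succ, prod_range_succ, prod_range_succ, ih, prod_range_succ,
      prod_range_succ, prod_range_succ]
    ring

theorem nil_pow {x : A} {N : ℕ} (h : x ^ N = 0) (m : ℕ) (hm : 0 < m) : (x ^ m) ^ N = 0 := by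
  rw [← pow_mul]; exact pow_zero_of_le h (Nat.le_mul_of_pos_left N hm)

/-- `(x;x²)` -/
def Om (x : A) (N : ℕ) : A := ∏ i ∈ range N, (1 - x ^ (2 * i + 1))

theorem Om_mul {x : A} {N : ℕ} (h : x ^ N = 0) : Om x N * P (x ^ 2) N = P x N := by
  rw [← P_stab h (show N ≤ 2 * N by omega), P, P, prod_two, Om]
  congr 1
  exact prod_congr rfl fun i _ => by rw [← pow_mul]; congr 2

theorem Om_neg (x : A) (N : ℕ) : Om (-x) N * Om x N = Om (x ^ 2) N := by
  rw [Om, Om, Om, ← prod_mul_distrib]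
  exact prod_congr rfl fun i _ => by rw [(odd_two_mul_add_one i).neg_pow]; ring

theorem Om_neg_mul {x : A} {N : ℕ} (h : x ^ N = 0) :
    Om (-x) N * P x N * P (x ^ 4) N = P (x ^ 2) N ^ 2 := by
  have h1 := Om_mul h
  have h2 := Om_mul (nil_pow h 2 (by norm_num))
  rw [← pow_mul] at h2
  linear_combination -Om (-x) N * P (x ^ 4) N * h1 + P (x ^ 2) N * P (x ^ 4) N * Om_neg x N
    + P (x ^ 2) N * h2

/-- Euler's pentagonal theorem -/
theorem pent {x : A} {N : ℕ} (h : x ^ N = 0) :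
    P x N = Th x (fun k => T k + 2 * T (-k)) sg := by
  have := jtp_neg x 1 2 N (nil_pow h _ (by norm_num))
  simp only [Nat.cast_one, one_mul, Nat.cast_ofNat] at this
  rw [← this, ← P_stab h (show N ≤ 3 * N by omega), P, P, prod_three, mul_comm]
  congr 1
  · exact prod_congr rfl fun i _ => by rw [← pow_mul]; congr 2
  · congr 1 <;> exact prod_congr rfl fun i _ => by congr 2; ring

theorem good_sq : Good fun k : ℤ => k ^ 2 :=
  Good.of_abs (fun _ => by positivity) fun k => by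
    rcases abs_cases k with ⟨e, _⟩ | ⟨e, _⟩ <;> rw [e] <;> nlinarith

/-- `φ(x) = ∑ x^{k²}` -/
theorem phi {x : A} {N : ℕ} (h : x ^ N = 0) :
    P (x ^ 2) N * Om (-x) N ^ 2 = Th x (fun k : ℤ => k ^ 2) fun _ => 1 := by
  have := jtp_pos x 1 1 N (nil_pow h _ (by norm_num))
  have e : (fun k : ℤ => ((1 : ℕ) : ℤ) * T k + ((1 : ℕ) : ℤ) * T (-k)) = fun k => k ^ 2 := by
    funext k
    have h2 := two_T k
    have h4 := two_T (-k)
    push_cast; nlinarith
  rw [e] at this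
  rw [← this, sq (Om _ _), Om]
  congr 2 <;> exact prod_congr rfl fun i _ => by rw [(odd_two_mul_add_one i).neg_pow]; ring

theorem good_quad (a b c : ℤ) (h0 : ∀ k, 0 ≤ a * k ^ 2 + b * k + c)
    (h : ∀ k, |k| ≤ a * k ^ 2 + b * k + c + 1) : Good fun k : ℤ => a * k ^ 2 + b * k + c :=
  Good.of_abs h0 h

/-- the parametrisation of `ℤ²` by three cosets -/
def e3 : Fin 3 × (ℤ × ℤ) ≃ ℤ × ℤ where
  toFun p := (2 * p.2.1 + p.2.2 + p.1 - 1, p.2.2 - p.2.1)
  invFun p := (⟨((p.1 - p.2 + 1) % 3).toNat, by omega⟩, (p.1 - p.2 + 1) / 3,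
    p.2 + (p.1 - p.2 + 1) / 3)
  left_inv := by
    rintro ⟨⟨j, hj⟩, t, n⟩
    simp only [Prod.mk.injEq, Fin.mk.injEq]
    omega
  right_inv := by
    rintro ⟨r, s⟩
    simp only [Prod.mk.injEq]
    omega

theorem int_nn (k : ℤ) : 0 ≤ k ^ 2 + k ∧ 0 ≤ k ^ 2 - k := by
  rcases lt_trichotomy k 0 with h | h | h <;> constructor <;> nlinarith

theorem good_th : Good fun n : ℤ => 3 * n ^ 2 + 2 * n :=
  Good.of_abs (fun k => by nlinarith [int_nn k]) fun k => by
    rcases abs_cases k with ⟨e, _⟩ | ⟨e, _⟩ <;> rw [e] <;> nlinarith [int_nn k]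

/-- `f₂⁵ / f₁² = ∑ (-1)^n (3n+1) x^{3n²+2n}` -/
theorem quint {x : A} {N : ℕ} (h : x ^ N = 0) (h2 : IsUnit (2 : A)) :
    Th x (fun n : ℤ => 3 * n ^ 2 + 2 * n) (fun n => sg n * (3 * n + 1)) * P x N ^ 2
      = P (x ^ 2) N ^ 5 := by
  have h4 := nil_pow h 4 (by norm_num)
  set Θ := Th x (fun n : ℤ => 3 * n ^ 2 + 2 * n) (fun n => sg n * (3 * n + 1)) with hΘ
  have g4 : Good fun s : ℤ => 2 * s ^ 2 + 2 * s :=
    Good.of_abs (fun k => by nlinarith [int_nn k]) fun k => by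
      rcases abs_cases k with ⟨e, _⟩ | ⟨e, _⟩ <;> rw [e] <;> nlinarith [int_nn k]
  have g6 : Good fun s : ℤ => 6 * s ^ 2 - 2 * s :=
    Good.of_abs (fun k => by nlinarith [int_nn k]) fun k => by
      rcases abs_cases k with ⟨e, _⟩ | ⟨e, _⟩ <;> rw [e] <;> nlinarith [int_nn k]
  have g7 : Good fun s : ℤ => 6 * s ^ 2 - 6 * s :=
    Good.of_abs (fun k => by nlinarith [int_nn k]) fun k => by
      rcases abs_cases k with ⟨e, _⟩ | ⟨e, _⟩ <;> rw [e] <;> nlinarith [int_nn k]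
  have g8 : Good fun s : ℤ => 3 * s ^ 2 + 1 :=
    Good.of_abs (fun k => by nlinarith [int_nn k]) fun k => by
      rcases abs_cases k with ⟨e, _⟩ | ⟨e, _⟩ <;> rw [e] <;> nlinarith [int_nn k]
  have J : P (x ^ 4) N ^ 3 = Th x (fun s : ℤ => 2 * s ^ 2 + 2 * s) fun s => sg s * s := by
    rw [jacobi _ N h4, Th_pow _ _ _ good_T.1]
    congr 1; funext k; have := two_T k; push_cast; nlinarith
  have E : P (x ^ 4) N = Th x (fun s : ℤ => 6 * s ^ 2 - 2 * s) sg := by
    rw [pent h4, Th_pow _ _ _ fun k => by positivity]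
    congr 1; funext k; have := two_T k; have := two_T (-k); push_cast; nlinarith
  have Z1 := Th_anti (Equiv.subLeft (-1 : ℤ)) (c := sg) g4 h (fun s => by simp; ring) fun s => by
    rw [sg_succ (k := s) (l := Equiv.subLeft (-1 : ℤ) s) ⟨s, by simp; ring⟩]; ring
  have Z2 := Th_anti (Equiv.neg ℤ) (c := fun r => r) good_sq h (fun s => by simp) fun s => by simp
  have Z3 := Th_anti (Equiv.subLeft (1 : ℤ)) (c := sg) g7 h (fun s => by simp; ring) fun s => by
    rw [sg_succ (k := s) (l := Equiv.subLeft (1 : ℤ) s) ⟨s - 1, by simp; ring⟩]; ring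
  have gg := good_sq.prod g4
  have S1 : Th x (fun p : ℤ × ℤ => p.1 ^ 2 + (2 * p.2 ^ 2 + 2 * p.2))
        (fun p => sg p.2 * (p.1 + 2 * p.2 + 1))
      = Th x (fun r : ℤ => r ^ 2) (fun r => r) * Th x (fun s : ℤ => 2 * s ^ 2 + 2 * s) sg
        + Th x (fun r : ℤ => r ^ 2) (fun _ => 1) * Th x (fun s : ℤ => 2 * s ^ 2 + 2 * s) sg
        + ((2 : ℤ) : A) * (Th x (fun r : ℤ => r ^ 2) (fun _ => 1)
          * Th x (fun s : ℤ => 2 * s ^ 2 + 2 * s) fun s => sg s * s) := by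
    rw [Th_mul good_sq g4 h, Th_mul good_sq g4 h, Th_mul good_sq g4 h, Th_smul _ _ gg h,
      Th_add _ _ gg h, Th_add _ _ gg h]
    congr 1; funext p; ring
  have S2 : Th x (fun p : ℤ × ℤ => p.1 ^ 2 + (2 * p.2 ^ 2 + 2 * p.2))
        (fun p => sg p.2 * (p.1 + 2 * p.2 + 1))
      = Th x (fun s : ℤ => 6 * s ^ 2 - 6 * s) sg * Th x (fun s : ℤ => 3 * s ^ 2 + 1)
          (fun n => sg n * (3 * n)) + P (x ^ 4) N * Θ + P (x ^ 4) N * Θ := by
    have g3 : Good fun p => (e3 p).1 ^ 2 + (2 * (e3 p).2 ^ 2 + 2 * (e3 p).2) :=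
      gg.comp e3.injective
    rw [← Th_equiv e3 x (fun _ => rfl) (fun _ => rfl), Th_fintype g3 h, Fin.sum_univ_three, E, hΘ, Th_mul g7 g8 h,
      Th_mul g6 good_th h]
    have sgs : ∀ t n : ℤ, sg (n - t) = sg t * sg n := fun t n => by
      rw [← sg_add]; exact sg_congr ⟨-t, by ring⟩
    congr 1
    · congr 1
      · congr 1 <;> funext p <;> simp [e3, sgs] <;> ring
      · congr 1 <;> funext p <;> simp [e3, sgs] <;> ring
    · refine Th_equiv ((Equiv.neg ℤ).prodCongr (Equiv.subLeft (-1))) x (fun p => ?_) fun p => ?_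
      · simp [e3]; ring
      · have a1 : sg (-p.1) = sg p.1 := sg_congr ⟨-p.1, by ring⟩
        have a2 : sg (-1) = -1 := by decide
        simp [e3, sgs, a1, a2]; ring
  have ph := phi h
  have K : Th x (fun r : ℤ => r ^ 2) (fun _ => 1) * P (x ^ 4) N ^ 2 = Θ := by
    refine (P_unit h4 N).mul_left_cancel ((h2.mul h2).mul_left_cancel ?_)
    rw [S1, ← J] at S2
    push_cast at S2
    linear_combination 2 * S2 - Th x (fun s : ℤ => 2 * s ^ 2 + 2 * s) sg * Z2
      - Th x (fun r : ℤ => r ^ 2) (fun _ => 1) * Z1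
      + Th x (fun s : ℤ => 3 * s ^ 2 + 1) (fun n => sg n * (3 * n)) * Z3
  have O := Om_neg_mul h
  rw [← K, ← ph]
  linear_combination P (x ^ 2) N * (Om (-x) N * P x N * P (x ^ 4) N + P (x ^ 2) N ^ 2) * O

/-! ### supports -/

open PowerSeries

variable {R B : Type*} [CommRing R] [CommRing B]

/-- `b` lifts to a power series supported on `S` -/
def In (π : R⟦X⟧ →+* B) (S : ℕ → Prop) (b : B) : Prop :=
  ∃ ψ, π ψ = b ∧ ∀ n, ¬ S n → coeff n ψ = 0

variable {π : R⟦X⟧ →+* B} {S S' S'' : ℕ → Prop}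

theorem In.zero : In π S 0 := ⟨0, map_zero _, fun _ _ => map_zero _⟩

theorem In.add {a b : B} (h : In π S a) (h' : In π S b) : In π S (a + b) := by
  obtain ⟨φ, rfl, h⟩ := h
  obtain ⟨ψ, rfl, h'⟩ := h'
  exact ⟨φ + ψ, map_add _ _ _, fun n hn => by rw [map_add, h n hn, h' n hn, add_zero]⟩

theorem In.mul {a b : B} (h : In π S a) (h' : In π S' b)
    (hS : ∀ m n, S m → S' n → S'' (m + n)) : In π S'' (a * b) := by
  obtain ⟨φ, rfl, h⟩ := h
  obtain ⟨ψ, rfl, h'⟩ := h'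
  refine ⟨φ * ψ, map_mul _ _ _, fun n hn => ?_⟩
  rw [coeff_mul]
  refine sum_eq_zero fun p hp => ?_
  by_cases h1 : S p.1
  · rw [h' p.2 fun h2 => hn (mem_antidiagonal.1 hp ▸ hS _ _ h1 h2), mul_zero]
  · rw [h _ h1, zero_mul]

theorem In.mono (r : R) (n : ℕ) (h : S n) : In π S (π (C r) * π X ^ n) :=
  ⟨C r * X ^ n, by simp, fun m hm => by
    rw [coeff_C_mul, coeff_X_pow, if_neg (by rintro rfl; exact hm h), mul_zero]⟩

theorem In.const (r : R) {b : B} (h : In π S b) : In π S (π (C r) * b) := by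
  obtain ⟨φ, rfl, h⟩ := h
  exact ⟨C r * φ, map_mul _ _ _, fun n hn => by rw [coeff_C_mul, h n hn, mul_zero]⟩

theorem In.th {ι : Type*} (r : R) (E c : ι → ℤ) (h : ∀ i, (c i : B) = 0 ∨ S (E i).toNat) :
    In π S (Th (π (C r) * π X) E c) :=
  finsum_induction _ In.zero (fun _ _ => In.add) fun i => by
    rcases h i with h | h
    · rw [h, zero_mul]; exact In.zero
    · have := In.mono (π := π) (c i * r ^ (E i).toNat) _ h
      simpa [mul_pow, mul_assoc] using this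

/-- `1 / (y;y)` for `y = (r X)^m` is supported on multiples of `m` -/
theorem In.inv_P (r : R) (m N K : ℕ) (h : ((π (C r) * π X) ^ m) ^ N = 0) :
    ∃ w, In π (m ∣ ·) w ∧ P ((π (C r) * π X) ^ m) K * w = 1 := by
  induction K with
  | zero => exact ⟨1, by simpa using In.mono (π := π) (S := (m ∣ ·)) 1 0 (dvd_zero m), by simp [P]⟩
  | succ K ih =>
    obtain ⟨w, hw, h1⟩ := ih
    refine ⟨w * ∑ j ∈ range N, (((π (C r) * π X) ^ m) ^ (K + 1)) ^ j,
      hw.mul (S' := (m ∣ ·)) ?_ fun _ _ => dvd_add, ?_⟩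
    · refine sum_induction _ _ (fun _ _ => In.add) In.zero fun j _ => ?_
      have := In.mono (π := π) (S := (m ∣ ·)) (r ^ (m * (K + 1) * j)) (m * (K + 1) * j)
        ⟨(K + 1) * j, by ring⟩
      simpa [mul_pow, ← pow_mul] using this
    · have g := mul_neg_geom_sum (((π (C r) * π X) ^ m) ^ (K + 1)) N
      rw [nil_pow h _ (Nat.succ_pos K), sub_zero] at g
      rw [P, prod_range_succ]
      change P _ K * _ * _ = 1
      linear_combination (P ((π (C r) * π X) ^ m) K * w) * g + h1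

/-- `π` is the truncation `R⟦X⟧ → R⟦X⟧ / X^M` -/
def Tr (π : R⟦X⟧ →+* B) (M : ℕ) : Prop := ∀ φ, π φ = 0 ↔ X ^ M ∣ φ

theorem exists_tr (R : Type) [CommRing R] (M : ℕ) :
    ∃ (B : Type) (_ : CommRing B) (π : R⟦X⟧ →+* B), Tr π M :=
  ⟨R⟦X⟧ ⧸ Ideal.span {(X : R⟦X⟧) ^ M}, inferInstance, Ideal.Quotient.mk _, fun _ => by
    rw [Ideal.Quotient.eq_zero_iff_mem, Ideal.mem_span_singleton]⟩

theorem Tr.nil {M : ℕ} (h : Tr π M) (b : B) : (b * π X) ^ M = 0 := by
  rw [mul_pow, ← map_pow, (h _).2 dvd_rfl, mul_zero]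

/-- read off a coefficient in the truncation -/
theorem In.coeff_eq {M n : ℕ} {φ : R⟦X⟧} (hπ : Tr π M) (h : In π S (π φ))
    (hn : n < M) (hS : ¬ S n) : coeff n φ = 0 := by
  obtain ⟨ψ, h1, h2⟩ := h
  have := X_pow_dvd_iff.1 ((hπ (ψ - φ)).1 (by rw [map_sub, h1, sub_self])) n hn
  rw [map_sub, h2 n hS, zero_sub, neg_eq_zero] at this
  exact this

open scoped PowerSeries.WithPiTopology in
/-- truncation of the partition generating function -/
theorem gen_trunc [TopologicalSpace R] [DiscreteTopology R] (f : ℕ → ℕ → R) {M : ℕ} (m : ℕ)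
    (hm : 0 < m) (hπ : Tr π M) : ∃ N, M ≤ N ∧ π (Nat.Partition.genFun f) =
      ∏ i ∈ range (m * N), π (1 + ∑' j, f (i + 1) (j + 1) • (X : R⟦X⟧) ^ ((i + 1) * (j + 1))) := by
  have t := (Nat.Partition.hasProd_genFun f).tendsto_prod_nat.comp
    (Filter.tendsto_id.const_mul_atTop' hm)
  have ev : ∀ n : ℕ, ∀ᶠ N in Filter.atTop, coeff n (∏ i ∈ range (m * N),
      (1 + ∑' j, f (i + 1) (j + 1) • (X : R⟦X⟧) ^ ((i + 1) * (j + 1))))
        = coeff n (Nat.Partition.genFun f) := fun n => by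
    have := ((PowerSeries.WithPiTopology.continuous_coeff R n).tendsto _).comp t
    rw [nhds_discrete, Filter.tendsto_pure] at this
    exact this
  have ev2 := (Filter.eventually_all_finset (range M)).2 fun n _ => ev n
  obtain ⟨N, h1, h2⟩ := (ev2.and (Filter.eventually_ge_atTop M)).exists
  refine ⟨N, h2, ?_⟩
  rw [← map_prod, ← sub_eq_zero, ← map_sub, hπ, X_pow_dvd_iff]
  intro n hn
  rw [map_sub, h1 n (mem_range.2 hn), sub_self]

open scoped PowerSeries.WithPiTopology in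
theorem geo_inv [TopologicalSpace R] [DiscreteTopology R] (a : R) (i : ℕ) :
    (1 + ∑' j, a ^ (j + 1) • (X : R⟦X⟧) ^ ((i + 1) * (j + 1))) * (1 - C a * X ^ (i + 1)) = 1 := by
  have s := PowerSeries.WithPiTopology.summable_pow_of_constantCoeff_eq_zero
    (f := C a * (X : R⟦X⟧) ^ (i + 1)) (by simp)
  have := PowerSeries.WithPiTopology.tsum_pow_mul_one_sub_of_constantCoeff_eq_zero
    (f := C a * (X : R⟦X⟧) ^ (i + 1)) (by simp)
  rw [s.tsum_eq_zero_add, pow_zero] at this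
  simpa only [mul_pow, ← pow_mul, ← map_pow, smul_eq_C_mul] using this

end Pool.Agent.Lib.JTP
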