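import Mathlib

set_option autoImplicit false

open Finset

namespace Pool.Agent.Lib.helper26.MulTable

/-- Number of primes of `P` dividing `n`. -/
noncomputable def w (P : Finset ℕ) (n : ℕ) : ℝ := ∑ p ∈ P, if p ∣ n then (1 : ℝ) else 0

lemma count_dvd (N d : ℕ) : ∑ n ∈ Icc 1 N, (if d ∣ n then (1 : ℝ) else 0) = (N / d : ℕ) := by
  rw [sum_boole, ← Nat.Ioc_filter_dvd_card_eq_div]
  rfl

/-- Variance bound (Turan) for a fixed finite set of primes. -/
lemma variance (P : Finset ℕ) (hP : ∀ p ∈ P, p.Prime) (N : ℕ) :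
    ∑ n ∈ Icc 1 N, (w P n - ∑ p ∈ P, 1 / (p : ℝ)) ^ 2 ≤
      N * (∑ p ∈ P, 1 / (p : ℝ)) + 2 * (∑ p ∈ P, 1 / (p : ℝ)) * P.card := by
  set L := ∑ p ∈ P, 1 / (p : ℝ) with hL
  have hL0 : 0 ≤ L := sum_nonneg fun _ _ => by positivity
  have h1 : N * L - P.card ≤ ∑ n ∈ Icc 1 N, w P n := by
    unfold w
    rw [sum_comm, hL, mul_sum, card_eq_sum_ones, Nat.cast_sum, ← sum_sub_distrib]
    refine sum_le_sum fun p hp => ?_
    rw [count_dvd]
    have hp0 : (0 : ℝ) < p := by exact_mod_cast (hP p hp).pos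
    have := Nat.lt_floor_add_one ((N : ℝ) / p)
    rw [Nat.floor_div_eq_div] at this
    push_cast
    rw [mul_one_div]
    linarith
  have h2 : ∑ n ∈ Icc 1 N, w P n ^ 2 ≤ N * L + N * L ^ 2 := by
    have e : ∀ n, w P n ^ 2 = ∑ p ∈ P, ∑ q ∈ P,
        (if p ∣ n then (1 : ℝ) else 0) * (if q ∣ n then (1 : ℝ) else 0) := by
      intro n
      rw [w, sq, sum_mul_sum]
    simp only [e]
    rw [sum_comm, hL, sq, sum_mul_sum, mul_sum, mul_sum, ← sum_add_distrib]
    refine sum_le_sum fun p hp => ?_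
    rw [sum_comm, mul_sum]
    have h3 : ∀ q ∈ P, ∑ n ∈ Icc 1 N, (if p ∣ n then (1 : ℝ) else 0) * (if q ∣ n then 1 else 0) ≤
        (if q = p then N * (1 / (p : ℝ)) else 0) + N * (1 / (p : ℝ) * (1 / q)) := by
      intro q hq
      by_cases hqp : q = p
      · subst hqp
        rw [if_pos rfl]
        have : ∑ n ∈ Icc 1 N, (if q ∣ n then (1 : ℝ) else 0) * (if q ∣ n then 1 else 0) =
            (N / q : ℕ) := by
          rw [← count_dvd]
          refine sum_congr rfl fun n _ => ?_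
          split_ifs <;> simp
        rw [this, mul_one_div]
        have h4 : ((N / q : ℕ) : ℝ) ≤ N / q := Nat.cast_div_le
        have h5 : (0 : ℝ) ≤ N * (1 / (q : ℝ) * (1 / q)) := by positivity
        linarith
      · rw [if_neg hqp, zero_add]
        have hco : p.Coprime q := (Nat.coprime_primes (hP p hp) (hP q hq)).mpr (Ne.symm hqp)
        have : ∑ n ∈ Icc 1 N, (if p ∣ n then (1 : ℝ) else 0) * (if q ∣ n then 1 else 0) =
            (N / (p * q) : ℕ) := by
          rw [← count_dvd]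
          refine sum_congr rfl fun n _ => ?_
          by_cases h : p * q ∣ n
          · simp [h, dvd_of_mul_right_dvd h, dvd_of_mul_left_dvd h]
          · rw [if_neg h]
            split_ifs with a b
            · exact absurd (hco.mul_dvd_of_dvd_of_dvd a b) h
            all_goals simp
        rw [this]
        refine Nat.cast_div_le.trans (le_of_eq ?_)
        push_cast
        ring
    refine (sum_le_sum h3).trans (le_of_eq ?_)
    rw [sum_add_distrib, sum_ite_eq' P p, if_pos hp]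
  have e : ∑ n ∈ Icc 1 N, (w P n - L) ^ 2 =
      ∑ n ∈ Icc 1 N, w P n ^ 2 - 2 * L * ∑ n ∈ Icc 1 N, w P n + N * L ^ 2 := by
    have : (N : ℝ) * L ^ 2 = ∑ n ∈ Icc 1 N, L ^ 2 := by simp
    rw [this, mul_sum, ← sum_sub_distrib, ← sum_add_distrib]
    exact sum_congr rfl fun n _ => by ring
  rw [e]
  have h4 := mul_le_mul_of_nonneg_left h1 (by positivity : 0 ≤ 2 * L)
  linarith

lemma markov {α : Type} (s : Finset α) (g : α → ℝ) (hg : ∀ a ∈ s, 0 ≤ g a) (t : ℝ) :
    ((s.filter fun a => t ≤ g a).card : ℝ) * t ≤ ∑ a ∈ s, g a := by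
  calc _ = ∑ a ∈ s.filter fun a => t ≤ g a, t := by rw [sum_const, nsmul_eq_mul]
    _ ≤ ∑ a ∈ s.filter fun a => t ≤ g a, g a := sum_le_sum fun a ha => (mem_filter.mp ha).2
    _ ≤ _ := sum_le_sum_of_subset_of_nonneg (filter_subset _ _) fun a ha _ => hg a ha

lemma exists_primes (B : ℝ) : ∃ P : Finset ℕ, (∀ p ∈ P, p.Prime) ∧ B ≤ ∑ p ∈ P, 1 / (p : ℝ) := by
  classical
  by_contra h
  push Not at h
  refine not_summable_one_div_on_primes (summable_of_sum_le (c := B)
    (fun n => Set.indicator_nonneg (fun _ _ => by positivity) n) fun u => ?_)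
  have h1 := h (u.filter Nat.Prime) fun p hp => (mem_filter.mp hp).2
  rw [sum_filter] at h1
  refine le_of_eq_of_le (sum_congr rfl fun n _ => ?_) h1.le
  simp [Set.indicator_apply]

/-- The multiplication table theorem of Erdos. -/
theorem mul_table (ε : ℝ) (hε : 0 < ε) : ∃ T0 : ℕ, ∀ T : ℕ, T0 ≤ T →
    ((((Icc 1 T) ×ˢ (Icc 1 T)).image fun p : ℕ × ℕ => p.1 * p.2).card : ℝ) ≤ ε * (T : ℝ) ^ 2 := by
  classical
  obtain ⟨P, hP, hB⟩ := exists_primes (112 / ε)
  set L := ∑ p ∈ P, 1 / (p : ℝ) with hL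
  have hL0 : 0 < L := lt_of_lt_of_le (by positivity) hB
  have hεL : 112 ≤ ε * L := by rwa [div_le_iff₀ hε, mul_comm] at hB
  refine ⟨2 * P.card + 1, fun T hT => ?_⟩
  have hT' : 2 * (P.card : ℝ) + 1 ≤ T := by exact_mod_cast hT
  have hc0 : (0 : ℝ) ≤ P.card := Nat.cast_nonneg _
  set bad : ℕ → Finset ℕ := fun N => (Icc 1 N).filter fun n => (L / 4) ^ 2 ≤ (w P n - L) ^ 2
    with hbad
  have hb : ∀ N : ℕ, ((bad N).card : ℝ) * L ≤ 16 * N + 32 * P.card := by
    intro N
    have h1 := (markov (Icc 1 N) (fun n => (w P n - L) ^ 2) (fun _ _ => sq_nonneg _)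
      ((L / 4) ^ 2)).trans (variance P hP N)
    have h2 : (((bad N).card : ℝ) * L) * L ≤ (16 * N + 32 * P.card) * L := by
      rw [← hL] at h1
      linarith
    exact le_of_mul_le_mul_right h2 hL0
  set v : ℕ × ℕ → ℝ := fun x => ∑ p ∈ P,
    (if p ∣ x.1 then (1 : ℝ) else 0) * (if p ∣ x.2 then (1 : ℝ) else 0) with hv
  set S := (Icc 1 T) ×ˢ (Icc 1 T) with hS
  have hv1 : ∑ x ∈ S, v x ≤ 2 * (T : ℝ) ^ 2 := by
    simp only [hv]
    rw [sum_comm]
    have h1 : ∀ p ∈ P, ∑ x ∈ S, (if p ∣ x.1 then (1 : ℝ) else 0) * (if p ∣ x.2 then 1 else 0) ≤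
        (T : ℝ) ^ 2 * ((p : ℝ) ^ 2)⁻¹ := by
      intro p _
      rw [hS, sum_product]
      dsimp only
      rw [← sum_mul_sum (Icc 1 T) (Icc 1 T) (fun x => if p ∣ x then (1 : ℝ) else 0)
        (fun x => if p ∣ x then (1 : ℝ) else 0), count_dvd]
      have h2 : ((T / p : ℕ) : ℝ) ≤ T / p := Nat.cast_div_le
      calc _ ≤ ((T : ℝ) / p) * (T / p) := by gcongr
        _ = _ := by ring
    refine (sum_le_sum h1).trans ?_
    rw [← mul_sum, mul_comm 2]
    refine mul_le_mul_of_nonneg_left ?_ (by positivity)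
    have h2 := sum_Ioo_inv_sq_le (α := ℝ) 0 (P.sup id + 1)
    refine le_trans (sum_le_sum_of_subset_of_nonneg ?_ fun _ _ _ => by positivity)
      (h2.trans (by norm_num))
    intro p hp
    have h3 : p ≤ P.sup id := le_sup (f := id) hp
    exact mem_Ioo.mpr ⟨(hP p hp).pos, by omega⟩
  have hv2 : ((S.filter fun x => L / 4 ≤ v x).card : ℝ) * (L / 4) ≤ 2 * (T : ℝ) ^ 2 :=
    (markov S v (fun x _ => sum_nonneg fun p _ => by split_ifs <;> norm_num) _).trans hv1
  have hw : ∀ a b : ℕ, w P (a * b) = w P a + w P b - v (a, b) := by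
    intro a b
    simp only [hv, w]
    rw [← sum_add_distrib, ← sum_sub_distrib]
    refine sum_congr rfl fun p hp => ?_
    simp only [(hP p hp).dvd_mul]
    by_cases h1 : p ∣ a <;> by_cases h2 : p ∣ b <;> simp [h1, h2]
  have hsub : S.image (fun p : ℕ × ℕ => p.1 * p.2) ⊆ bad (T ^ 2) ∪
      ((bad T ×ˢ Icc 1 T ∪ Icc 1 T ×ˢ bad T) ∪ S.filter fun x => L / 4 ≤ v x).image
        (fun p : ℕ × ℕ => p.1 * p.2) := by
    intro n hn
    obtain ⟨⟨a, b⟩, hab, rfl⟩ := mem_image.mp hn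
    obtain ⟨ha, hb'⟩ := mem_product.mp hab
    rw [mem_union]
    by_cases h1 : a ∈ bad T
    · exact Or.inr (mem_image_of_mem _ (mem_union_left _ (mem_union_left _
        (mem_product.mpr ⟨h1, hb'⟩))))
    by_cases h2 : b ∈ bad T
    · exact Or.inr (mem_image_of_mem _ (mem_union_left _ (mem_union_right _
        (mem_product.mpr ⟨ha, h2⟩))))
    by_cases h3 : L / 4 ≤ v (a, b)
    · exact Or.inr (mem_image_of_mem _ (mem_union_right _ (mem_filter.mpr ⟨hab, h3⟩)))
    left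
    have h1' : (w P a - L) ^ 2 < (L / 4) ^ 2 := not_le.mp fun h => h1 (mem_filter.mpr ⟨ha, h⟩)
    have h2' : (w P b - L) ^ 2 < (L / 4) ^ 2 := not_le.mp fun h => h2 (mem_filter.mpr ⟨hb', h⟩)
    have h4 := (abs_lt.mp (abs_lt_of_sq_lt_sq h1' (by linarith))).1
    have h5 := (abs_lt.mp (abs_lt_of_sq_lt_sq h2' (by linarith))).1
    have ha' := mem_Icc.mp ha
    have hb'' := mem_Icc.mp hb'
    refine mem_filter.mpr ⟨mem_Icc.mpr ⟨Nat.mul_pos ha'.1 hb''.1, ?_⟩, ?_⟩
    · rw [sq]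
      exact Nat.mul_le_mul ha'.2 hb''.2
    · refine pow_le_pow_left₀ (by linarith) ?_ 2
      rw [hw]
      linarith [not_le.mp h3]
  have h1 := (card_le_card hsub).trans ((card_union_le _ _).trans (add_le_add le_rfl
    (card_image_le.trans ((card_union_le _ _).trans (add_le_add (card_union_le _ _) le_rfl)))))
  rw [card_product, card_product, Nat.card_Icc, Nat.add_sub_cancel] at h1
  have h2 : ((S.image fun p : ℕ × ℕ => p.1 * p.2).card : ℝ) ≤ (bad (T ^ 2)).card +
      ((bad T).card * T + T * (bad T).card + (S.filter fun x => L / 4 ≤ v x).card) := by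
    exact_mod_cast h1
  have h3 := hb (T ^ 2)
  push_cast at h3
  have h4 := mul_le_mul_of_nonneg_right (hb T) (by linarith : (0 : ℝ) ≤ T)
  have h5 := mul_le_mul_of_nonneg_right h2 hL0.le
  have h6 := mul_le_mul_of_nonneg_right hεL (sq_nonneg (T : ℝ))
  have h7 := mul_le_mul_of_nonneg_right hT' (by linarith : (0 : ℝ) ≤ T)
  have h8 := mul_le_mul_of_nonneg_left (by linarith : (1 : ℝ) ≤ T) hc0
  refine le_of_mul_le_mul_right ?_ hL0
  nlinarith

end Pool.Agent.Lib.helper26.MulTable
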